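import Pool.Agent.Lib.MP_887a05_al.L3Main

/-! The main step with a given quadratic relation whose constant term is a product. -/

namespace Pool.Agent.Lib.MP_887a05_al.L3

open Polynomial Module

universe u

variable {F K : Type u} [Field F] [Field K]

theorem main2 (h2 : (2 : F) ≠ 0) {k d : ℕ} (hF : J F ^ (k + 1) = ⊥)
    (hL : ∀ q : Irr F, q.1.natDegree ≤ d → J (AdjoinRoot q.1) ^ k = ⊥) {l : List F[X]}
    (hk : l.length = k) (hl : ∀ a ∈ l, a ≠ 0 ∧ a.natDegree ≤ d) (h : Irr F)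
    (hd : d < h.1.natDegree) (P : Pl F[X] K) (ι : AdjoinRoot h.1 →+* K)
    (hP : ∀ a, P.π a = ι (h.pl.π a)) {e : K} (e0 : e ≠ 0) {A B C₁ C₂ : F[X]}
    (hA : A.natDegree ≤ d) (hB : B.natDegree ≤ d) (n1 : C₁ ≠ 0) (n2 : C₂ ≠ 0)
    (d1 : C₁.natDegree ≤ d) (d2 : C₂.natDegree ≤ 1) (d3 : 1 ≤ d)
    (r : P.π A * e ^ 2 + P.π B * e + P.π (C₁ * C₂) = 0) :
    c _ e * pf (l.map P.π) = pf (l.map P.π) := by
  have unit : ∀ q : Irr F, d < q.1.natDegree → ∀ a ∈ l, q.pl.π a ≠ 0 := fun q hq a ha =>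
    q.ne_of_lt (hl a ha).1 ((hl a ha).2.trans_lt hq)
  have two : (2 : F[X]) ≠ 0 := by simpa [map_ofNat] using C_ne_zero.2 h2
  set φ := pf (l.map P.π) with hφ
  have ne : ∀ {g : F[X]}, g ≠ 0 → g.natDegree ≤ d → P.π g ≠ 0 := fun g0 hg => by
    rw [hP]
    exact (_root_.map_ne_zero ι).2 (h.ne_of_lt g0 (hg.trans_lt hd))
  have uP : ∀ a ∈ l, P.π a ≠ 0 := fun a ha => ne (hl a ha).1 (hl a ha).2
  have low : ∀ {g : F[X]}, g ≠ 0 → g.natDegree ≤ d → c _ (P.π g) * φ = φ := fun g0 hg => by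
    have := congrArg P.sp (low_sim hF hL hk hl g0 hg)
    rwa [map_mul, P.sp_c (ne g0 hg), P.sp_pf uP] at this
  have can : ∀ {x : K}, c _ x * φ = φ → c _ (x * e) * φ = φ → c _ e * φ = φ :=
    fun {x} a b => by rw [map_mul] at b; linear_combination b - c _ e * a
  have lin : ∀ {A B : F[X]}, A ≠ 0 → A.natDegree ≤ d → B.natDegree ≤ d →
      P.π A * e + P.π B = 0 → c _ e * φ = φ := fun {A B} A0 hA hB r => by
    have r' : P.π A * e = P.π (-B) := by rw [map_neg]; linear_combination r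
    refine can (low A0 hA) (r' ▸ low ?_ (by rwa [natDegree_neg]))
    rintro k
    exact mul_ne_zero (ne A0 hA) e0 (by rw [r', k, map_zero])
  have d2' : C₂.natDegree ≤ d := d2.trans d3
  by_cases A0 : A = 0
  · subst A0
    rw [map_zero, zero_mul, zero_add, map_mul] at r
    have B0 : B ≠ 0 := fun B0 => mul_ne_zero (ne n1 d1) (ne n2 d2') (by
      rwa [B0, map_zero, zero_mul, zero_add] at r)
    have r' : P.π B * e = P.π (-C₁) * P.π C₂ := by rw [map_neg]; linear_combination r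
    refine can (low B0 hB) ?_
    rw [r', map_mul, mul_assoc, low n2 d2', low (neg_ne_zero.2 n1) (by rwa [natDegree_neg])]
  have C0 : C₁ * C₂ ≠ 0 := mul_ne_zero n1 n2
  have hC : (C₁ * C₂).natDegree ≤ d + 1 := natDegree_mul_le.trans (by omega)
  have lC : c _ (C₁ * C₂) * pf l = pf l := by
    rw [map_mul, mul_assoc, low_sim hF hL hk hl n2 d2', low_sim hF hL hk hl n1 d1]
  generalize C₁ * C₂ = C at r C0 hC lC
  by_cases D0 : P.π (2 * A) * e + P.π B = 0
  · refine lin (mul_ne_zero two A0) (natDegree_mul_le.trans ?_) hB D0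
    rwa [natDegree_ofNat, zero_add]
  set Δ := B ^ 2 - 4 * A * C with hΔ
  have Δs : P.π Δ = (P.π (2 * A) * e + P.π B) * (P.π (2 * A) * e + P.π B) := by
    simp only [hΔ, map_sub, map_mul, map_pow, map_ofNat]
    linear_combination -4 * P.π A * r
  have Δ1 : P.π Δ ≠ 0 := Δs ▸ mul_ne_zero D0 D0
  have Δc : c _ (P.π Δ) = 1 := by rw [Δs, map_mul, c_sq D0]
  have Δd : Δ.natDegree ≤ 2 * d + 1 := by
    have a1 := natDegree_sub_le (B ^ 2) (4 * A * C)
    have a2 := natDegree_pow_le (p := B) (n := 2)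
    have a3 := natDegree_mul_le (p := 4 * A) (q := C)
    have a4 := natDegree_mul_le (p := (4 : F[X])) (q := A)
    rw [natDegree_ofNat] at a4
    rw [hΔ]
    omega
  have hl0 : ∀ a ∈ l, a ≠ 0 := fun a ha => (hl a ha).1
  rcases repr_of_sim two hl0 (mul_ne_zero A0 C0) (by
      rw [map_mul, mul_assoc, lC, low_sim hF hL hk hl A0 hA]) with z | z
  · rw [hφ, ← P.sp_pf uP, z, map_zero, mul_zero]
  obtain ⟨s, x, y, s0, hy, rep, hs⟩ : ∃ s x y : F[X], s ≠ 0 ∧ PV l y ∧ A * C * s ^ 2 = x ^ 2 + y ∧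
      ∀ q : Irr F, d < q.1.natDegree → q.pl.π s = 0 → pf (l.map q.pl.π) = 0 := by
    obtain ⟨s, x, y, s0, hy, rep⟩ := z
    induction hn : s.natDegree using Nat.strong_induction_on generalizing s x y with
    | _ n ih =>
      by_cases k : ∀ q : Irr F, d < q.1.natDegree → q.pl.π s = 0 → pf (l.map q.pl.π) = 0
      · exact ⟨s, x, y, s0, hy, rep, k⟩
      push Not at k
      obtain ⟨q, hq, a, b⟩ := k
      obtain ⟨x', y', hy', rfl, rfl⟩ := (dvd_or q.pl.π q.pl.hp (unit q hq) (x := x) hy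
        (by rw [← rep]; simp [a])).resolve_left b
      obtain ⟨s', rfl⟩ := (q.pl.hp s).1 a
      have s1 := right_ne_zero_of_mul s0
      refine ih s'.natDegree ?_ s' x' y' s1 hy' (mul_left_cancel₀ (pow_ne_zero 2 q.pl.p0) ?_) rfl
      · rw [← hn, natDegree_mul q.pl.p0 s1]
        exact Nat.lt_add_of_pos_left q.pos
      · linear_combination rep
  set G := 2 * x - B * s with hG
  have key : ∀ q : Irr F, d < q.1.natDegree → q.pl.π Δ ≠ 0 → q.pl.π (s * G) = 0 →
      ∃ ψ ∈ J (AdjoinRoot q.1) ^ (k - 1), pf (l.map q.pl.π) = (1 - c _ (q.pl.π Δ)) * ψ :=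
    fun q hq a b => by
      by_cases s1 : q.pl.π s = 0
      · exact ⟨0, zero_mem _, by rw [hs q hq s1, mul_zero]⟩
      have G1 : q.pl.π G = 0 := by rw [map_mul] at b; exact (mul_eq_zero.1 b).resolve_left s1
      have e1 : -(q.pl.π (2 ^ 2 * y)) = q.pl.π Δ * (q.pl.π s * q.pl.π s) := by
        have := congrArg q.pl.π rep
        simp only [hΔ, hG, map_sub, map_mul, map_pow, map_ofNat, map_add] at this G1 ⊢
        linear_combination 4 * this + (2 * q.pl.π x + q.pl.π B * q.pl.π s) * G1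
      obtain ⟨ψ, hψ, e2⟩ := slot (l := l.map q.pl.π) (by simpa using unit q hq)
        ((hy.smul 2).map q.pl.π) (neg_ne_zero.1 (e1 ▸ mul_ne_zero a (mul_ne_zero s1 s1)))
      rw [List.length_map, hk] at hψ
      rw [e1, map_mul, map_mul, c_sq s1, mul_one] at e2
      exact ⟨ψ, hψ, e2⟩
  by_cases G1 : P.π (s * G) = 0
  · obtain ⟨ψ, -, e2⟩ := key h hd (fun z => Δ1 (by rw [hP, z, map_zero]))
      ((_root_.map_eq_zero ι).1 (hP _ ▸ G1))
    have e3 := congrArg (map ι ι.injective) e2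
    rw [hom_pf _ ι (fun a _ => map_c ι _ a), List.map_map, map_mul, map_sub, map_one, map_c, ← hP,
      Δc, sub_self, zero_mul, show ι ∘ h.pl.π = P.π from funext fun a => (hP a).symm] at e3
    rw [hφ, e3, mul_zero]
  have G0 : s * G ≠ 0 := fun k => G1 (by rw [k, map_zero])
  obtain ⟨η, hη⟩ := descent hF hL (fun k => Δ1 (by rw [k, map_zero])) Δd (x := pf ((s * G) :: l))
    (by
      have := pf_mem (l := (s * G) :: l) (by simpa [-mul_eq_zero, G0] using hl0)
      rwa [List.length_cons, hk] at this)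
    fun q hq a => by
      rw [pf_cons, mul_comm, q.pl.dp_mul_of (q.pl.dp_pf (unit q hq)), q.pl.sp_pf (unit q hq)]
      by_cases b : q.pl.π (s * G) = 0
      · obtain ⟨ψ, hψ, e2⟩ := key q hq a b
        exact ⟨_, Ideal.mul_mem_right _ _ hψ, by rw [e2, mul_assoc]⟩
      · exact ⟨0, zero_mem _, by rw [map_sub, q.pl.dp_one, q.pl.dp_c b]; ring⟩
  have a1 := congrArg P.sp hη
  rw [pf_cons, map_mul P.sp, map_mul P.sp, map_sub P.sp, map_sub P.sp, map_one,
    P.sp_c G1, P.sp_c Δ1, Δc, P.sp_pf uP, sub_self, zero_mul, ← hφ] at a1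
  have e1 : (P.π (A * s) * e + P.π x) ^ 2 + P.π y = P.π A * P.π (s * G) * e := by
    have := congrArg P.π rep
    simp only [hG, map_sub, map_mul, map_pow, map_ofNat, map_add] at this ⊢
    linear_combination P.π A * P.π s ^ 2 * r - this
  have a2 := round (l := l.map P.π) (by simpa using uP)
    (x := P.π (A * s) * e + P.π x) (hy.map P.π)
    (e1 ▸ mul_ne_zero (mul_ne_zero (ne A0 hA) G1) e0)
  rw [e1] at a2
  refine can ?_ a2
  rw [map_mul]
  linear_combination low A0 hA - c _ (P.π A) * a1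

end Pool.Agent.Lib.MP_887a05_al.L3
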