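import Pool.Agent.Lib.MP_887a05_al.L3Main

/-! The sum of the conjugates in a Galois extension of prime degree. -/

namespace Pool.Agent.Lib.MP_887a05_al.L3

open Polynomial Module

universe u

section
variable {D D' k k' : Type u} [CommRing D] [CommRing D'] [Field k] [Field k']

theorem oe_map2 {D'' : Type u} [CommRing D''] {f : D →+* D'} {g : D' →+* D''} {h : D →+* D''}
    (hf : Function.Injective f) (hg : Function.Injective g) (hh : Function.Injective h)
    (H : ∀ a, g (f a) = h a) (x : R D) : map g hg (map f hf x) = map h hh x := by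
  induction x using induction_on with
  | h1 a => rw [map_c, map_c, map_c, H]
  | hadd x y a b => rw [map_add, map_add, a, b, map_add]

theorem oe_map1 {f : D →+* D} (hf : Function.Injective f) (H : ∀ a, f a = a) (x : R D) :
    map f hf x = x := by
  induction x using induction_on with
  | h1 a => rw [map_c, H]
  | hadd x y a b => rw [map_add, a, b]

theorem oe_mem [Nontrivial D] {f : D →+* D'} (hf : Function.Injective f) {m : ℕ} {x : R D}
    (hx : x ∈ J D ^ m) : map f hf x ∈ J D' ^ m := by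
  refine pow_induction (p := fun x => map f hf x ∈ J D' ^ m) hx (fun u l h1 h2 => ?_)
    fun x y a b => by rw [map_add]; exact add_mem a b
  rw [map_mul, hom_pf _ f fun a _ => map_c f hf a]
  refine Ideal.mul_mem_left _ _ ?_
  have := pf_mem (l := l.map f) fun a ha => by
    obtain ⟨b, hb, rfl⟩ := List.mem_map.1 ha
    exact (map_ne_zero_iff f hf).2 (h2 b hb)
  rwa [List.length_map, h1] at this

variable [IsDomain D] [WfDvdMonoid D] [IsDomain D'] [WfDvdMonoid D']

theorem Pl.dp_c' (P : Pl D k) (n : ℕ) {b : D} (hb : P.π b ≠ 0) :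
    P.dp (c D (P.p ^ n * b)) = if Odd n then c k (P.π b) else 0 := by
  induction n with
  | zero => simpa using P.dp_c hb
  | succ n ih =>
    have : P.sp (c D P.p) = 1 := by simpa using P.sp_c' 1 (b := 1) (by simp)
    rw [pow_succ', mul_assoc, map_mul, P.dp_mul, ih, P.dp_p, P.sp_c' n hb, this]
    by_cases h : Odd n
    · rw [if_pos h, if_neg (Nat.odd_add_one.not.2 (not_not.2 h))]
      ring
    · rw [if_neg h, if_pos (Nat.odd_add_one.2 h)]
      ring

theorem Pl.comp (P : Pl D k) (P' : Pl D' k') (f : D →+* D') (hf : Function.Injective f)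
    (j : k →+* k') (h : ∀ a, P'.π (f a) = j (P.π a)) {e : ℕ} {u : D'} (hu : P'.π u ≠ 0)
    (he : f P.p = P'.p ^ e * u) (x : R D) :
    P'.dp (map f hf x) = (if Odd e then c k' (P'.π u) else 0) * map j j.injective (P.dp x) := by
  induction x using induction_on with
  | h1 a =>
    by_cases a0 : a = 0
    · simp [a0, c_zero]
    obtain ⟨n, b, hb, rfl⟩ := P.dec a0
    have hb' : P'.π (f b) ≠ 0 := by rw [h]; exact (_root_.map_ne_zero j).2 hb
    have e1 : f (P.p ^ n * b) = P'.p ^ (e * n) * (u ^ n * f b) := by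
      rw [map_mul, map_pow, he]; ring
    rw [map_c, e1, P'.dp_c' _ (by
      rw [map_mul, map_pow]; exact mul_ne_zero (pow_ne_zero _ hu) hb'), P.dp_c' _ hb]
    by_cases h1 : Odd e
    · by_cases h2 : Odd n
      · rw [if_pos (h1.mul h2), if_pos h1, if_pos h2, map_c, map_mul, map_pow, h, map_mul, map_pow]
        obtain ⟨r, rfl⟩ := h2
        rw [pow_succ, pow_mul, sq, c_sq hu, one_pow, one_mul]
      · rw [if_neg fun k => h2 (Nat.odd_mul.1 k).2, if_neg h2, map_zero, mul_zero]
    · rw [if_neg fun k => h1 (Nat.odd_mul.1 k).1, if_neg h1, zero_mul]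
  | hadd x y hx hy => rw [map_add, map_add, hx, hy, map_add, map_add, mul_add]

theorem Pl.comp_sp (P : Pl D k) (P' : Pl D' k') (f : D →+* D') (hf : Function.Injective f)
    (j : k →+* k') (h : ∀ a, P'.π (f a) = j (P.π a)) (he : f P.p = P'.p) (x : R D) :
    P'.sp (map f hf x) = map j j.injective (P.sp x) := by
  induction x using induction_on with
  | h1 a =>
    by_cases a0 : a = 0
    · simp [a0, c_zero]
    obtain ⟨n, b, hb, rfl⟩ := P.dec a0
    have hb' : P'.π (f b) ≠ 0 := by rw [h]; exact (_root_.map_ne_zero j).2 hb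
    rw [map_c, map_mul f, map_pow f, he, P'.sp_c' _ hb', P.sp_c' _ hb, map_c, h]
  | hadd x y hx hy => rw [map_add, map_add, hx, hy, map_add, map_add]

end

variable {F E K k : Type u} [Field F] [Field E] [Field K] [Field k] [Algebra E K]

theorem Pl.cst (P : Pl F[X] k) (s : R F) : P.dp (map C C_injective s) = 0 ∧
    P.sp (map C C_injective s) = map (P.π.comp C) (P.π.comp C).injective s := by
  induction s using induction_on with
  | h1 a =>
    by_cases a0 : a = 0
    · simp [a0, c_zero]
    have : P.π (C a) ≠ 0 := (_root_.map_ne_zero (P.π.comp C)).2 a0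
    rw [map_c, map_c]
    exact ⟨P.dp_c this, P.sp_c this⟩
  | hadd x y hx hy => simp only [map_add, hx, hy, add_zero, and_self]

/-- The place at a rational point. -/
noncomputable def ev (a : F) : Pl F[X] F :=
  ⟨evalRingHom a, X - C a, X_sub_C_ne_zero a, fun _ => dvd_iff_isRoot.symm⟩

theorem oe_const {x : R F[X]} (hx : x ∈ L F 1) (a b : F) : (ev a).sp x = (ev b).sp x := by
  induction hx using Subring.closure_induction with
  | mem x hx =>
    obtain ⟨g, hg, rfl⟩ := hx
    obtain ⟨r, rfl⟩ := natDegree_eq_zero.1 (Nat.lt_one_iff.1 hg)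
    by_cases a0 : r = 0
    · simp [a0, c_zero]
    · rw [(ev a).sp_c (by simpa [ev] using a0), (ev b).sp_c (by simpa [ev] using a0)]
      simp [ev]
  | zero => simp
  | one => simp
  | add _ _ _ _ p q => rw [map_add, map_add, p, q]
  | neg _ _ p => rw [map_neg, map_neg, p]
  | mul _ _ _ _ p q => rw [map_mul, map_mul, p, q]

theorem lift_all {m : ℕ} (p : Irr F) {ψ : R (AdjoinRoot p.1)} (hψ : ψ ∈ J _ ^ m) :
    ∃ η ∈ J F[X] ^ (m + 1), p.pl.dp η = ψ ∧ ∀ q : Irr F, q ≠ p → q.pl.dp η = 0 := by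
  induction hn : p.1.natDegree using Nat.strong_induction_on generalizing p with
  | _ n ih =>
  obtain ⟨η, h1, h2, h3⟩ := lift_res p hψ
  have : ∀ q : Irr F, ∃ ζ ∈ J F[X] ^ (m + 1),
      q.pl.dp ζ = (if q.1.natDegree < n then q.pl.dp η else 0) ∧
        ∀ r : Irr F, r ≠ q → r.pl.dp ζ = 0 := fun q => by
    by_cases k : q.1.natDegree < n
    · rw [if_pos k]
      exact ih _ k q (q.pl.res_mem h1).2 rfl
    · exact ⟨0, zero_mem _, by simp [k], by simp⟩
  choose ζ z1 z2 z3 using this
  have key : ∀ r : Irr F, r.pl.dp (∑ q ∈ (res_finite η).toFinset, ζ q) =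
      if r.1.natDegree < n then r.pl.dp η else 0 := fun r => by
    rw [map_sum, Finset.sum_eq_single r (fun q _ hq => z3 q r hq.symm) fun hr => ?_, z2]
    have : r.pl.dp η = 0 := by simpa using hr
    rw [z2, this, ite_self]
  refine ⟨η - ∑ q ∈ (res_finite η).toFinset, ζ q, sub_mem h1 (sum_mem fun q _ => z1 q), ?_,
    fun q hq => ?_⟩
  · rw [map_sub, key, if_neg (by omega), h2, sub_zero]
  · rw [map_sub, key]
    split_ifs with k
    · exact sub_self _
    · rw [h3 q hq (by omega), sub_zero]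

theorem norm_slot [FiniteDimensional E K] [IsGalois E K] {m : ℕ} (hE : J E ^ (m + 1) = ⊥) {θ : K}
    (hθ : ∀ x : K, ∃ g : E[X], aeval θ g = x) (t0 : θ ≠ 0) (t1 : θ ≠ 1) {φ : R K}
    (hφ : φ ∈ J K ^ m) :
    ∑ σ : Gal(K/E), map (σ : K →+* K) σ.injective (φ * (c K (-θ) - c K (1 - θ))) = 0 := by
  have i : IsIntegral E θ := .of_finite E θ
  obtain ⟨p, hp⟩ : ∃ p : Irr E, p.1 = minpoly E θ :=
    ⟨⟨_, minpoly.irreducible i, minpoly.monic i⟩, rfl⟩
  have p0 : aeval θ p.1 = 0 := hp ▸ minpoly.aeval E θ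
  let j1 : AdjoinRoot p.1 →+* K := AdjoinRoot.lift (algebraMap E K) θ p0
  have j1m : ∀ a, j1 (p.pl.π a) = aeval θ a := fun a => AdjoinRoot.lift_mk _ a
  let g := RingEquiv.ofBijective j1 ⟨j1.injective, fun x => by
    obtain ⟨a, rfl⟩ := hθ x
    exact ⟨_, j1m a⟩⟩
  let f : E[X] →+* K[X] := mapRingHom (algebraMap E K)
  have hf : Function.Injective f := map_injective _ (algebraMap E K).injective
  have fe : ∀ (r : K) a, eval r (f a) = aeval r a := fun r a => eval_map_algebraMap a r
  obtain ⟨u, hu⟩ : X - C θ ∣ f p.1 := dvd_iff_isRoot.2 ((fe _ _).trans p0)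
  have u0 : eval θ u ≠ 0 := fun e => by
    obtain ⟨w, rfl⟩ := dvd_iff_isRoot.2 e
    have sq : Squarefree (f p.1) := hp ▸
      (Polynomial.Separable.map (Algebra.IsSeparable.isSeparable E θ)).squarefree
    exact not_isUnit_X_sub_C θ (sq _ ⟨w, by rw [hu, mul_assoc]⟩)
  obtain ⟨η, h1, h2, h3⟩ := lift_all p (oe_mem (f := (g.symm : K →+* AdjoinRoot p.1))
    g.symm.injective (Ideal.mul_mem_left _ (c K (eval θ u)) hφ))
  have A : ∀ σ : Gal(K/E), (ev (σ θ)).dp (map f hf η) = map (σ : K →+* K) σ.injective φ :=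
    fun σ => by
    have e1 : eval (σ θ) (u.map (σ : K →+* K)) = σ (eval θ u) := eval_map_apply (σ : K →+* K) θ
    have n0 : σ (eval θ u) ≠ 0 := (_root_.map_ne_zero σ).2 u0
    have := p.pl.comp (ev (σ θ)) f hf ((σ : K →+* K).comp j1) (fun a => by
      rw [RingHom.comp_apply, j1m]
      exact (fe _ _).trans (aeval_algHom_apply σ θ a)) (e := 1) (u := u.map (σ : K →+* K))
      (e1.trans_ne n0) (by
        have := congrArg (Polynomial.map (σ : K →+* K)) hu
        rw [Polynomial.map_mul, Polynomial.map_sub, map_X, map_C] at this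
        refine Eq.trans ?_ (this.trans (by simp [ev]))
        change Polynomial.map _ p.1 = Polynomial.map _ (Polynomial.map _ p.1)
        rw [Polynomial.map_map]
        congr 1
        ext x
        simp) η
    rw [this, if_pos odd_one, h2, oe_map2 (h := (σ : K →+* K)) _ _ σ.injective
      (fun a => congrArg σ (g.apply_symm_apply a)), map_mul, map_c, ← mul_assoc]
    change c K (eval (σ θ) _) * c K (σ _) * _ = _
    rw [e1, c_sq n0, one_mul]
  have B : ∀ q : Irr K, q.pl.dp (map f hf η - ∑ σ : Gal(K/E),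
      map C C_injective (map (σ : K →+* K) σ.injective φ) * c K[X] (X - C (σ θ))) = 0 :=
    fun q => by
    rw [map_sub, map_sum]
    simp only [q.pl.dp_mul_of (q.pl.cst _).1, (q.pl.cst _).2]
    by_cases k : ∃ σ : Gal(K/E), q.1 = X - C (σ θ)
    · obtain ⟨σ, hσ⟩ := k
      have := (ev (σ θ)).comp q.pl (RingHom.id _) Function.injective_id (q.pl.π.comp C)
        (fun a => by
          refine sub_eq_zero.1 ?_
          rw [RingHom.comp_apply, ← map_sub]
          refine (q.pl.hp _).2 ?_
          change q.1 ∣ _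
          rw [hσ]
          exact X_sub_C_dvd_sub_C_eval) (e := 1) (u := 1) (by simp)
        (by rw [pow_one, mul_one]; exact hσ.symm) (map f hf η)
      rw [oe_map1 _ (fun _ => rfl), if_pos odd_one, map_one, map_one, one_mul, A] at this
      rw [this, Finset.sum_eq_single σ (fun ρ _ hρ => ?_) (by simp), ← hσ]
      · rw [show q.pl.dp (c K[X] q.1) = 1 from q.pl.dp_p, mul_one, sub_self]
      · rw [q.pl.dp_c fun e => hρ ?_, mul_zero]
        have d : q.1 ∣ _ := (q.pl.hp _).1 e
        rw [hσ, dvd_iff_isRoot] at d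
        have d : σ θ = ρ θ := by simpa [sub_eq_zero] using d
        ext x
        obtain ⟨a, rfl⟩ := hθ x
        rw [← aeval_algHom_apply, ← aeval_algHom_apply, d]
    · rw [Finset.sum_eq_zero fun σ _ => by
        rw [q.pl.dp_c fun e => k ⟨σ, congrArg Subtype.val (q.eq_of_dvd
          (q := ⟨_, irreducible_X_sub_C _, monic_X_sub_C _⟩) ((q.pl.hp _).1 e))⟩, mul_zero],
        sub_zero]
      have i' : IsIntegral E (AdjoinRoot.root q.1) :=
        isIntegral_trans _ (AdjoinRoot.isIntegral_root q.2.1.ne_zero)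
      obtain ⟨r, hr⟩ : ∃ r : Irr E, r.1 = minpoly E (AdjoinRoot.root q.1) :=
        ⟨⟨_, minpoly.irreducible i', minpoly.monic i'⟩, rfl⟩
      have r0 : aeval (AdjoinRoot.root q.1) r.1 = 0 := hr ▸ minpoly.aeval E _
      let j : AdjoinRoot r.1 →+* AdjoinRoot q.1 :=
        AdjoinRoot.lift (algebraMap E _) (AdjoinRoot.root q.1) r0
      have hj : ∀ a, q.pl.π (f a) = j (r.pl.π a) := fun a => by
        refine Eq.trans ?_ (AdjoinRoot.lift_mk _ a).symm
        change AdjoinRoot.mk q.1 (a.map _) = aeval _ a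
        rw [← AdjoinRoot.aeval_eq, aeval_map_algebraMap]
      obtain ⟨e, w, w0, hw⟩ := q.pl.dec ((map_ne_zero_iff f hf).2 r.pl.p0)
      rw [r.pl.comp q.pl f hf j hj w0 hw, h3 r fun e => k ?_, map_zero, mul_zero]
      have d : q.1 ∣ f p.1 := (q.pl.hp _).1 (by
        rw [hj, ← e]; exact (congrArg j r.pl.πp).trans j.map_zero)
      have sp0 : (f p.1).Splits := hp ▸ Normal.splits inferInstance θ
      have sp : q.1.Splits := sp0.of_dvd ((map_ne_zero_iff f hf).2 p.pl.p0) d
      have ha := Monic.eq_X_add_C q.2.2 (sp.natDegree_eq_one_of_irreducible q.2.1)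
      generalize q.1.coeff 0 = a at ha
      have ha : q.1 = X - C (-a) := by rw [ha]; simp
      rw [ha, dvd_iff_isRoot] at d
      obtain ⟨σ, hσ⟩ := minpoly.exists_algEquiv_of_root' i.isAlgebraic
        (hp ▸ (fe _ _).symm.trans d)
      exact ⟨σ, hσ ▸ ha⟩
  have S : ∀ a : E, algebraMap E K a ≠ θ → (ev (algebraMap E K a)).sp (map f hf η -
      ∑ σ : Gal(K/E), map C C_injective (map (σ : K →+* K) σ.injective φ) *
        c K[X] (X - C (σ θ))) =
      -∑ σ : Gal(K/E), map (σ : K →+* K) σ.injective (φ * c K (algebraMap E K a - θ)) :=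
    fun a ha => by
    have z := ((ev a).res_mem h1).1
    rw [hE, Ideal.mem_bot] at z
    rw [map_sub, (ev a).comp_sp _ f hf (algebraMap E K) (fun b => (fe _ _).trans
      (aeval_algebraMap_apply_eq_algebraMap_eval a b)) (by simp [ev, f]), z, map_zero, zero_sub,
      map_sum]
    refine congrArg _ (Finset.sum_congr rfl fun σ _ => ?_)
    have e : (ev (algebraMap E K a)).π (X - C (σ θ)) = σ (algebraMap E K a - θ) := by simp [ev]
    rw [map_mul, (Pl.cst _ _).2, oe_map1 _ (fun _ => by simp [ev]), Pl.sp_c _ (e.trans_ne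
      ((_root_.map_ne_zero σ).2 (sub_ne_zero.2 ha))), e, map_mul, map_c]
    rfl
  have := oe_const (L_of_res B) (algebraMap E K 0) (algebraMap E K 1)
  rw [S 0 (by simpa using t0.symm), S 1 (by simpa using t1.symm), neg_inj, map_zero, map_one,
    zero_sub] at this
  simp only [mul_sub, map_sub, Finset.sum_sub_distrib]
  exact sub_eq_zero.2 this

theorem norm_prime (E K : Type u) [Field E] [Field K] [Algebra E K] [FiniteDimensional E K]
    [IsGalois E K] (hp : (finrank E K).Prime) {m : ℕ} (hE : J E ^ (m + 1) = ⊥) :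
    ∀ φ ∈ J K ^ (m + 1), ∑ σ : Gal(K/E), map (σ : K →+* K) σ.injective φ = 0 := by
  have so := Subalgebra.isSimpleOrder_of_finrank_prime E K hp
  have one : ∀ x ∉ (⊥ : Subalgebra E K), ∀ φ ∈ J K ^ m,
      ∑ σ : Gal(K/E), map (σ : K →+* K) σ.injective (φ * (1 - c K x)) = 0 := fun x hx φ hφ => by
    have x0 : x ≠ 0 := fun e => hx (e ▸ zero_mem _)
    have x1 : x - 1 ≠ 0 := fun e => hx (sub_eq_zero.1 e ▸ one_mem _)
    have n1 : 1 - x / (x - 1) ≠ 0 := by
      rw [one_sub_div x1]
      simp [x1]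
    have nb : x / (x - 1) ∉ (⊥ : Subalgebra E K) := fun k => hx (by
      obtain ⟨a, ha⟩ := Algebra.mem_bot.1 k
      refine Algebra.mem_bot.2 ⟨-a / (1 - a), ?_⟩
      rw [map_div₀, map_neg, map_sub, map_one, ha, div_eq_iff n1]
      field_simp
      ring)
    have top : Algebra.adjoin E {x / (x - 1)} = ⊤ := (eq_bot_or_eq_top _).resolve_left fun e =>
      nb (e ▸ Algebra.self_mem_adjoin_singleton E _)
    have := norm_slot hE (θ := x / (x - 1)) (fun y => by
      have : y ∈ Algebra.adjoin E {x / (x - 1)} := top ▸ Algebra.mem_top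
      rwa [Algebra.adjoin_singleton_eq_range_aeval] at this) (div_ne_zero x0 x1)
      (sub_ne_zero.1 n1).symm (Ideal.mul_mem_left _ (-c K (1 - x / (x - 1))) hφ)
    have e : -(x / (x - 1)) = x * (1 - x / (x - 1)) := by
      field_simp
      ring
    rw [e, map_mul] at this
    refine Eq.trans (Finset.sum_congr rfl fun σ _ => congrArg _ ?_) this
    linear_combination (-(φ * (1 - c K x))) * c_sq n1
  have all : ∀ x ≠ 0, ∀ φ ∈ J K ^ m,
      ∑ σ : Gal(K/E), map (σ : K →+* K) σ.injective (φ * (1 - c K x)) = 0 := fun x x0 φ hφ => by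
    by_cases hx : x ∈ (⊥ : Subalgebra E K)
    swap
    · exact one x hx φ hφ
    obtain ⟨y, -, hy⟩ := SetLike.exists_of_lt (bot_lt_top (α := Subalgebra E K))
    have y0 : y ≠ 0 := fun e => hy (e ▸ zero_mem _)
    have xy : x * y ∉ (⊥ : Subalgebra E K) := fun k => hy (by
      obtain ⟨a, ha⟩ := Algebra.mem_bot.1 k
      obtain ⟨b, hb⟩ := Algebra.mem_bot.1 hx
      exact Algebra.mem_bot.2 ⟨a / b, by rw [map_div₀, ha, hb, mul_div_cancel_left₀ _ x0]⟩)
    have := congrArg₂ (· + ·) (one y hy φ hφ) (one _ xy _ (Ideal.mul_mem_left _ (c K y) hφ))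
    simp only [← Finset.sum_add_distrib, ← map_add, add_zero] at this
    refine Eq.trans (Finset.sum_congr rfl fun σ _ => congrArg _ ?_) this
    rw [map_mul]
    linear_combination (φ * c K x) * c_sq y0
  intro φ hφ
  refine pow_induction (p := fun φ => ∑ σ : Gal(K/E), map (σ : K →+* K) σ.injective φ = 0) hφ
    (fun u l h1 h2 => ?_) fun x y a b => by
      simp only [map_add, Finset.sum_add_distrib, a, b, add_zero]
  obtain _ | ⟨x, l⟩ := l
  · simp at h1
  have := pf_mem (l := l) fun a ha => h2 a (by simp [ha])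
  rw [show l.length = m by simpa using h1] at this
  rw [pf_cons, mul_comm (1 - c K x), ← mul_assoc]
  exact all x (h2 x (by simp)) _ (Ideal.mul_mem_left _ _ this)

end Pool.Agent.Lib.MP_887a05_al.L3
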