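import Pool.Agent.Lib.MP_887a05_al.OE.Cub1
import Pool.Agent.Lib.MP_887a05_al.OE.Nrm
import Pool.Agent.Lib.MP_887a05_al.Norms

/-! Towers of two cubic extensions. -/

namespace Pool.Agent.Lib.MP_887a05_al.L3

open Polynomial Module

universe u

variable {F L K : Type u} [Field F] [Field L] [Field K]

theorem cub_inv {b : K} (hb : b ≠ 0) : c K b⁻¹ = c K b := by
  have : c K b⁻¹ * c K b = 1 := by rw [← map_mul, inv_mul_cancel₀ hb, map_one]
  linear_combination c K b * this - c K b⁻¹ * c_sq hb

theorem cub_le [Algebra L K] [Module.Finite L K] (h : finrank L K ≤ 3) (k : ℕ) :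
    J K ^ (k + 1) ≤ (J L ^ k).map (map (algebraMap L K) (algebraMap L K).injective) * J K := by
  have sq : J K * J K ≤ (J L).map (map (algebraMap L K) (algebraMap L K).injective) * J K := by
    set I := (J L).map (map (algebraMap L K) (algebraMap L K).injective) * J K
    have key := steinberg_cubic h (fun a b : K => (1 - c K a) * (1 - c K b) ∈ I)
      (fun a b _ _ hab => by rwa [mul_comm])
      (fun a b d _ _ _ hab hac => by
        have e : (1 - c K a) * (1 - c K (b * d)) = (1 - c K a) * (1 - c K b) +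
            c K b * ((1 - c K a) * (1 - c K d)) := by rw [map_mul]; ring
        rw [e]
        exact I.add_mem hab (I.mul_mem_left _ hac))
      (fun a b _ hb hab => by rwa [cub_inv hb])
      (fun a ha => by
        rw [steinberg, c_neg, mul_neg, c_sq ha, add_neg_cancel (1 : R K), mul_zero]
        exact I.zero_mem)
      (fun a _ _ => by
        rw [steinberg, add_sub_cancel, map_one, sub_self, zero_mul]
        exact I.zero_mem)
      (fun t a ht ha => by
        refine Ideal.mul_mem_mul ?_ (one_sub_mem ha)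
        have := Ideal.mem_map_of_mem (map (algebraMap L K) (algebraMap L K).injective)
          (one_sub_mem ht)
        rwa [map_sub, map_one, map_c] at this)
    conv_lhs => rw [J, Ideal.span_mul_span]
    rw [Ideal.span_le]
    rintro _ ⟨_, ⟨a, ha, rfl⟩, _, ⟨b, hb, rfl⟩, rfl⟩
    exact key a b ha hb
  induction k with
  | zero => simp [Ideal.map_top]
  | succ k ih =>
    calc J K ^ (k + 1 + 1) = J K ^ (k + 1) * J K := pow_succ _ _
      _ ≤ (J L ^ k).map _ * J K * J K := Ideal.mul_mono_left ih
      _ ≤ (J L ^ k).map _ * ((J L).map _ * J K) := by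
        rw [mul_assoc]; exact Ideal.mul_mono_right sq
      _ = _ := by rw [← mul_assoc, ← Ideal.map_mul, ← pow_succ]

theorem cub_toric [Algebra F K] (h2 : (2 : F) ≠ 0) {n : ℕ} (hF : J F ^ (n + 1) = ⊥) {a : List F}
    (h1 : a.length = n) (a0 : ∀ x ∈ a, x ≠ 0) {y : K} (i : IsIntegral F y) (y0 : y ≠ 0) :
    ((minpoly F y).natDegree ≤ 2 → (1 - c K y) * pf (a.map (algebraMap F K)) = 0) ∧
    ∀ (u : K) (p0 p1 p2 q0 q1 q2 : F), u ≠ 0 →
      y ^ 3 + (algebraMap F K p0 + algebraMap F K p1 * u + algebraMap F K p2 * u ^ 2) * y ^ 2 +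
        (algebraMap F K q0 + algebraMap F K q1 * u + algebraMap F K q2 * u ^ 2) * y - u = 0 →
      (1 - c K u) * ((1 - c K y) * pf (a.map (algebraMap F K))) = 0 := by
  obtain ⟨h, hh⟩ : ∃ p : Irr F, p.1 = minpoly F y :=
    ⟨⟨_, minpoly.irreducible i, minpoly.monic i⟩, rfl⟩
  have p0 : aeval y h.1 = 0 := hh ▸ minpoly.aeval F y
  let ι : AdjoinRoot h.1 →+* K := AdjoinRoot.lift (algebraMap F K) y p0
  have hι : ∀ g, aeval y g = ι (h.pl.π g) := fun g => (AdjoinRoot.lift_mk _ g).symm
  have hL : ∀ q : Irr F, q.1.natDegree ≤ 2 → J (AdjoinRoot q.1) ^ (n + 1) = ⊥ := fun q hq =>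
    tower h2 hF 1 q (by omega)
  have hl : ∀ g ∈ X :: a.map C, g ≠ 0 ∧ g.natDegree ≤ 2 := fun g hg => by
    rcases List.mem_cons.1 hg with rfl | hg
    · exact ⟨X_ne_zero, by simp⟩
    · obtain ⟨x, hx, rfl⟩ := List.mem_map.1 hg
      exact ⟨C_ne_zero.2 (a0 x hx), by simp⟩
  have e1 : pf ((X :: a.map C).map (aeval y)) = (1 - c K y) * pf (a.map (algebraMap F K)) := by
    rw [List.map_cons, pf_cons, aeval_X, List.map_map]
    congr 3
    funext x
    simp
  have low : (minpoly F y).natDegree ≤ 2 → (1 - c K y) * pf (a.map (algebraMap F K)) = 0 :=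
    fun hd => by
    have m := pf_mem (l := (X :: a.map C).map h.pl.π) fun z hz e => by
      obtain ⟨g, hg, rfl⟩ := List.mem_map.1 hz
      have e' : aeval y g = 0 := by rw [hι, e, map_zero]
      rcases List.mem_cons.1 hg with rfl | hg
      · exact y0 (by simpa using e')
      · obtain ⟨x, hx, rfl⟩ := List.mem_map.1 hg
        exact a0 x hx (by simpa using e')
    rw [List.length_map, List.length_cons, List.length_map, h1, hL h (hh ▸ hd),
      Ideal.mem_bot] at m
    have := congrArg (map ι ι.injective) m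
    rwa [hom_pf _ ι (fun a _ => map_c ι _ a), List.map_map, map_zero,
      show ι ∘ h.pl.π = aeval y from funext fun g => (hι g).symm, e1] at this
  refine ⟨low, fun u p0 p1 p2 q0 q1 q2 u0 r => ?_⟩
  by_cases hd : (minpoly F y).natDegree ≤ 2
  · rw [low hd, mul_zero]
  let P : Pl F[X] K := ⟨(aeval y : F[X] →ₐ[F] K), h.1, h.2.1.ne_zero, fun g => by
    rw [hh]; exact minpoly.dvd_iff.symm⟩
  have := main2 h2 (k := n + 1) (d := 2) (le_bot_iff.1 (hF ▸ Ideal.pow_le_pow_right (by omega)))
    hL (l := X :: a.map C) (by simp [h1]) hl h (by rw [hh]; omega) P ι hι u0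
    (A := C p2 * X ^ 2 + C q2 * X) (B := C p1 * X ^ 2 + C q1 * X - 1)
    (C₁ := X ^ 2 + C p0 * X + C q0) (C₂ := X) (by compute_degree) (by compute_degree)
    (Monic.ne_zero (by monicity!)) X_ne_zero (by compute_degree) (by simp) (by omega) (by
      simp only [P, RingHom.coe_coe, map_add, map_mul, map_sub, map_pow, aeval_C, aeval_X, map_one]
      linear_combination r)
  change c K u * pf ((X :: a.map C).map (aeval y)) = pf ((X :: a.map C).map (aeval y)) at this
  rw [e1] at this
  linear_combination -this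

theorem cub_core [Algebra F L] [Algebra L K] [Algebra F K] [IsScalarTower F L K]
    (h2 : (2 : F) ≠ 0) {n : ℕ} (hF : J F ^ (n + 1) = ⊥) (hL : finrank F L = 3)
    (hK : finrank L K = 3) {a : List F} (h1 : a.length = n) (a0 : ∀ x ∈ a, x ≠ 0) {t : L}
    (ht : t ≠ 0) {b : K} (hb : b ≠ 0) :
    pf (a.map (algebraMap F K)) * ((1 - c K (algebraMap L K t)) * (1 - c K b)) = 0 := by
  have : Module.Finite F L := Module.finite_of_finrank_pos (by omega)
  have : Module.Finite L K := Module.finite_of_finrank_pos (by omega)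
  have : Module.Finite F K := Module.Finite.trans L K
  have hcomp : ∀ x : F, algebraMap L K (algebraMap F L x) = algebraMap F K x := fun x =>
    (IsScalarTower.algebraMap_apply F L K x).symm
  have inj : ∀ t : L, t ≠ 0 → algebraMap L K t ≠ 0 := fun t ht => by simpa using ht
  have hn : Algebra.norm L b ≠ 0 := Algebra.norm_ne_zero_iff.2 hb
  set N := Algebra.norm L b with hnd
  set y : K := algebraMap L K (t / N) * b ^ 3 with hyd
  have hy : y ≠ 0 := mul_ne_zero (inj _ (div_ne_zero ht hn)) (pow_ne_zero _ hb)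
  have hNy : Algebra.norm L y = t ^ 3 := by
    rw [hyd, map_mul, map_pow, Algebra.norm_algebraMap, hK, ← hnd]; field_simp
  obtain ⟨a1, a2, hch⟩ : ∃ a1 a2 : L,
      y ^ 3 + algebraMap L K a2 * y ^ 2 + algebraMap L K a1 * y - algebraMap L K (t ^ 3) = 0 := by
    set χ := (Algebra.lmul L K y).charpoly with hχ
    have h0 : Polynomial.aeval y χ = 0 := Algebra.aeval_self_charpoly_lmul y
    have hd : χ.natDegree = 3 := by rw [hχ, LinearMap.charpoly_natDegree, hK]
    have hm : χ.coeff 3 = 1 := by rw [← hd]; exact LinearMap.charpoly_monic _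
    have hc : χ.coeff 0 = - t ^ 3 := by
      have := LinearMap.det_eq_sign_charpoly_coeff (Algebra.lmul L K y)
      rw [hK, ← hχ, ← Algebra.norm_apply, hNy] at this
      linear_combination this
    rw [Polynomial.aeval_eq_sum_range, hd] at h0
    simp only [Finset.sum_range_succ, Finset.sum_range_zero, hm, hc, Algebra.smul_def, map_neg,
      map_one] at h0
    exact ⟨χ.coeff 1, χ.coeff 2, by linear_combination h0⟩
  set φ := pf (a.map (algebraMap F K)) with hφ
  have u0 := inj _ (pow_ne_zero 3 ht)
  have cu : c K (algebraMap L K (t ^ 3)) = c K (algebraMap L K t) := by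
    rw [map_pow, map_pow, pow_succ, sq, c_sq (inj t ht), one_mul]
  have dep : ∀ x : L, (∃ p0 p1 p2 : F, x = algebraMap F L p0 + algebraMap F L p1 * t ^ 3 +
      algebraMap F L p2 * (t ^ 3) ^ 2) ∨ (1 - c K (algebraMap L K t)) * φ = 0 := fun x => by
    obtain ⟨c0, c1, c2, c3, hne, hc⟩ := exists_dep4 hL.le 1 (t ^ 3) ((t ^ 3) ^ 2) x
    rcases eq_or_ne c3 0 with rfl | h3
    · right
      rw [← cu]
      refine (cub_toric h2 hF h1 a0 (.of_finite F _) u0).1 ?_
      have g0 : C c2 * X ^ 2 + C c1 * X + C c0 ≠ 0 := fun e => by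
        have e0 := congrArg (coeff · 0) e
        have e1 := congrArg (coeff · 1) e
        have e2 := congrArg (coeff · 2) e
        simp [coeff_X, coeff_C] at e0 e1 e2
        simp [e0, e1, e2] at hne
      refine (natDegree_le_of_dvd (minpoly.dvd F _ ?_) g0).trans (by compute_degree)
      have := congrArg (algebraMap L K) hc
      simp only [map_add, map_mul, map_pow, map_zero, hcomp, map_one, aeval_C, aeval_X] at this ⊢
      linear_combination this
    · left
      have : algebraMap F L c3 ≠ 0 := by simpa using h3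
      refine ⟨-c0 / c3, -c1 / c3, -c2 / c3, ?_⟩
      simp only [map_div₀, map_neg]
      field_simp
      linear_combination hc
  rcases dep a1 with ⟨q0, q1, q2, hq⟩ | z
  swap
  · linear_combination (1 - c K b) * z
  rcases dep a2 with ⟨p0, p1, p2, hp⟩ | z
  swap
  · linear_combination (1 - c K b) * z
  have k1 := (cub_toric h2 hF h1 a0 (.of_finite F y) hy).2 _ p0 p1 p2 q0 q1 q2 u0 (by
    rw [hp, hq] at hch
    simpa only [map_add, map_mul, map_pow, hcomp] using hch)
  have JL : J L ^ (n + 2) = ⊥ := finite_ext h2 fun q hq => tower h2 hF 2 q (by omega)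
  have k2 := pf_mem (l := t :: t / N :: a.map (algebraMap F L)) (by
    simpa [ht, hn] using a0)
  rw [List.length_cons, List.length_cons, List.length_map, h1, JL, Ideal.mem_bot] at k2
  have k3 := congrArg (map (algebraMap L K) (algebraMap L K).injective) k2
  rw [hom_pf _ _ (fun a _ => map_c _ _ a), map_zero, List.map_cons, List.map_cons, List.map_map,
    show algebraMap L K ∘ algebraMap F L = algebraMap F K from funext hcomp, pf_cons,
    pf_cons, ← hφ] at k3
  rw [cu, hyd, map_mul, map_pow (c K), pow_succ, sq, c_sq hb, one_mul] at k1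
  linear_combination k1 - c K b * k3

theorem cub_tower [Algebra F L] [Algebra L K] (h2 : (2 : F) ≠ 0) {n : ℕ}
    (hF : J F ^ (n + 1) = ⊥) (hL : finrank F L = 3) (hK : finrank L K = 3) :
    J K ^ (n + 2) = ⊥ := by
  have : Module.Finite F L := Module.finite_of_finrank_pos (by omega)
  have : Module.Finite L K := Module.finite_of_finrank_pos (by omega)
  let _ : Algebra F K := ((algebraMap L K).comp (algebraMap F L)).toAlgebra
  have : IsScalarTower F L K := .of_algebraMap_eq fun _ => rfl
  set f := map (algebraMap F L) (algebraMap F L).injective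
  set g := map (algebraMap L K) (algebraMap L K).injective
  have ann : ∀ {I : Ideal (R L)} {z : R K}, I.map g ≤ (Ideal.span {z}).annihilator ↔
      ∀ x ∈ I, g x * z = 0 := fun {I z} => by
    rw [Ideal.map_le_iff_le_comap]
    exact forall₂_congr fun x _ => Submodule.mem_annihilator_span_singleton z (g x)
  have s1 : ∀ t ≠ 0, ∀ b ≠ 0, ∀ r ∈ (J F ^ n).map f,
      g r * ((1 - c K (algebraMap L K t)) * (1 - c K b)) = 0 := fun t ht b hb => by
    rw [← ann, Ideal.map_map, Ideal.map_le_iff_le_comap]
    intro x hx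
    refine (Submodule.mem_annihilator_span_singleton _ _).2 ?_
    refine pow_induction (p := fun x => g.comp f x * _ = 0) hx (fun u l h1 l0 => ?_)
      fun x y p q => by rw [map_add, add_mul, p, q, add_zero]
    rw [map_mul, hom_pf _ (algebraMap F K) (fun a _ => by
      rw [RingHom.comp_apply, map_c, map_c]; rfl), mul_assoc, cub_core h2 hF hL hK h1 l0 ht hb,
      mul_zero]
  have s2 : ∀ b ≠ 0, ∀ x ∈ J L ^ (n + 1), g x * (1 - c K b) = 0 := fun b hb x hx => by
    refine Submodule.mul_induction_on (cub_le hL.le n hx) (fun r hr s hs => ?_)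
      fun x y p q => by rw [map_add, add_mul, p, q, add_zero]
    induction hs using Submodule.span_induction with
    | mem s hs =>
      obtain ⟨t, ht, rfl⟩ := hs
      rw [map_mul, map_sub, map_one, map_c, mul_assoc, s1 t ht b hb r hr]
    | zero => simp
    | add x y _ _ p q => rw [mul_add, map_add, add_mul, p, q, add_zero]
    | smul w x _ p => rw [smul_eq_mul, mul_left_comm, map_mul, mul_assoc, p, mul_zero]
  refine le_bot_iff.1 ((cub_le hK.le (n + 1)).trans (Ideal.mul_le.2 fun x hx y hy => ?_))
  rw [Ideal.mem_bot]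
  induction hy using Submodule.span_induction with
  | mem y hy =>
    obtain ⟨b, hb, rfl⟩ := hy
    exact (Submodule.mem_annihilator_span_singleton _ _).1 (ann.2 (s2 b hb) hx)
  | zero => simp
  | add x y _ _ p q => rw [mul_add, p, q, add_zero]
  | smul w x _ p => rw [smul_eq_mul, mul_left_comm, p, mul_zero]

end Pool.Agent.Lib.MP_887a05_al.L3
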