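import Pool.Agent.Lib.MP_887a05_al.L3Main

/-! The `2`-part of an abelian extension costs nothing. -/

namespace Pool.Agent.Lib.MP_887a05_al.L3

open Polynomial Module

universe u

theorem quad_step {E K : Type u} [Field E] [Field K] [Algebra E K] [FiniteDimensional E K]
    (h2 : (2 : E) ≠ 0) (hd : finrank E K ≤ 2) {m : ℕ} (hE : J E ^ (m + 1) = ⊥) :
    J K ^ (m + 1) = ⊥ :=
  finite_ext h2 (K := K) fun q hq => tower h2 hE 1 q (by omega)

theorem abel2 (F : Type u) [Field F] (h2 : (2 : F) ≠ 0) (a e m : ℕ)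
    (A : ∀ (K : Type u) [Field K] [Algebra F K] [FiniteDimensional F K] [IsAbelianGalois F K],
      (∀ σ : Gal(K / F), σ ^ e = 1) → J K ^ (m + 1) = ⊥)
    (K : Type u) [Field K] [Algebra F K] [FiniteDimensional F K] [IsAbelianGalois F K]
    (h : ∀ σ : Gal(K / F), σ ^ (2 ^ a * e) = 1) : J K ^ (m + 1) = ⊥ := by
  suffices H : ∀ (n : ℕ) (K : Type u) [Field K] [Algebra F K] [FiniteDimensional F K]
      [IsAbelianGalois F K], finrank F K = n → (∀ σ : Gal(K / F), σ ^ (2 ^ a * e) = 1) →
      J K ^ (m + 1) = ⊥ from H _ K rfl h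
  intro n
  induction n using Nat.strong_induction_on with
  | _ n ih =>
  intro K _ _ _ _ hn he
  by_cases hT : ∃ ρ : Gal(K / F), ρ ≠ 1 ∧ ρ ^ 2 = 1
  · obtain ⟨ρ, h1, hρ⟩ := hT
    have hr : finrank (IntermediateField.fixedField (Subgroup.zpowers ρ)) K = 2 := by
      rw [IntermediateField.finrank_fixedField_eq_card, Nat.card_zpowers,
        orderOf_eq_prime hρ h1]
    set E := IntermediateField.fixedField (Subgroup.zpowers ρ)
    have hm := Module.finrank_mul_finrank F E K
    have hpos : 0 < finrank F E := Module.finrank_pos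
    have hE : J E ^ (m + 1) = ⊥ := by
      refine ih (finrank F E) (by rw [hr, hn] at hm; omega) E rfl fun g => ?_
      obtain ⟨g, rfl⟩ := AlgEquiv.restrictNormalHom_surjective K g
      rw [← map_pow, he, map_one]
    have h2E : (2 : E) ≠ 0 := by
      simpa [map_ofNat] using (map_ne_zero (algebraMap F E)).2 h2
    exact quad_step h2E hr.le hE
  · push Not at hT
    have key : ∀ (b : ℕ) (ρ : Gal(K / F)), ρ ^ (2 ^ b) = 1 → ρ = 1 := by
      intro b
      induction b with
      | zero => intro ρ hρ; simpa using hρ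
      | succ b ihb =>
        intro ρ hρ
        by_contra hne
        refine hT ρ hne (ihb _ ?_)
        rw [← pow_mul, ← pow_succ', hρ]
    refine A K fun σ => key a _ ?_
    rw [← pow_mul, mul_comm, he]

end Pool.Agent.Lib.MP_887a05_al.L3
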