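import Pool.Agent.Lib.MP_887a05_al.OE.Spr
import Pool.Agent.Lib.MP_887a05_al.OE.Two

/-! Going down along finite Galois extensions. -/

namespace Pool.Agent.Lib.MP_887a05_al.L3

open Polynomial Module

universe u

theorem dn_res {E : Type u} [Field E] (p : Irr E) (hp : p.1.natDegree = 2) {m : ℕ}
    (hK : J (AdjoinRoot p.1) ^ (m + 1) = ⊥) {ψ : R E} (hψ : ψ ∈ J E ^ m) (r : E) :
    ψ * (1 - c E (p.1.eval r)) = 0 := by
  obtain ⟨q, hq⟩ : ∃ q : Irr E, q.1 = X - C r :=
    ⟨⟨_, irreducible_X_sub_C r, monic_X_sub_C r⟩, rfl⟩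
  have pq : p ≠ q := fun k => by rw [k, hq, natDegree_X_sub_C] at hp; omega
  have ep : p.pl.dp (c _ p.1) = 1 := p.pl.dp_p
  have eq : q.pl.dp (c _ q.1) = 1 := q.pl.dp_p
  obtain ⟨s, hs⟩ := spr_L (L_of_res
    (x := map C C_injective ψ * ((1 - c _ p.1) * (1 - c _ q.1)) +
      map C C_injective (ψ * (1 - c E (p.1.eval r))) * c _ q.1) fun t => by
    rw [map_add, t.pl.dp_mul_of (t.pl.cst _).1, t.pl.dp_mul_of (t.pl.cst _).1, (t.pl.cst _).2,
      (t.pl.cst _).2]
    by_cases e : t = p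
    · subst e
      have k := Ideal.mul_mem_mul (oe_mem (t.pl.π.comp C).injective hψ)
        (one_sub_mem (t.ne_of_ne pq))
      rw [← pow_succ, hK, Ideal.mem_bot] at k
      rw [t.pl.dp_c (t.ne_of_ne pq), mul_comm (1 - c _ t.1),
        t.pl.dp_mul_of (by rw [map_sub, t.pl.dp_one, t.pl.dp_c (t.ne_of_ne pq), sub_zero]),
        map_sub, map_sub, map_one, t.pl.sp_c (t.ne_of_ne pq), ep, t.pl.dp_one]
      linear_combination -k
    have d1 : t.pl.dp (1 - c _ p.1) = 0 := by
      rw [map_sub, t.pl.dp_one, t.pl.dp_c (t.ne_of_ne e), sub_zero]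
    rw [t.pl.dp_mul_of d1]
    by_cases e' : t = q
    · subst e'
      have k : (t.pl.π.comp C) (p.1.eval r) = t.pl.π p.1 := by
        rw [RingHom.comp_apply, eq_comm, ← sub_eq_zero, ← map_sub, t.pl.hp]
        change t.1 ∣ _
        rw [hq]
        exact X_sub_C_dvd_sub_C_eval
      rw [map_sub, map_sub, map_one, t.pl.sp_c (t.ne_of_ne e), eq, t.pl.dp_one, map_mul, map_sub,
        map_one, map_c, k]
      ring
    · rw [map_sub t.pl.dp, t.pl.dp_one, t.pl.dp_c (t.ne_of_ne e')]
      ring)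
  have k := congrArg (lift _ sprInf_sym) hs
  have e1 : lift _ sprInf_sym (c _ p.1) = 1 := by
    rw [lift_c, sprInf_apply, hp, sq, Pl.τ_sq, p.2.2.leadingCoeff]; simp
  have e2 : lift _ sprInf_sym (c _ q.1) = Pl.τ E := by
    rw [lift_c, sprInf_apply, q.2.2.leadingCoeff, hq, natDegree_X_sub_C]; simp
  rw [map_add, map_mul, map_mul, map_mul, map_sub, map_one, e1, sub_self, zero_mul, mul_zero,
    zero_add, e2, spr_const, spr_const] at k
  generalize ψ * (1 - c E (p.1.eval r)) = w at k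
  simpa [Pl.τ] using congrArg QuadraticAlgebra.im k

theorem dn_irr {E : Type u} [Field E] (h2 : (2 : E) ≠ 0) (p : Irr E) (hp : p.1.natDegree = 2)
    {m : ℕ} (hK : J (AdjoinRoot p.1) ^ (m + 1) = ⊥) (hE : J E ^ (m + 2) = ⊥) :
    J E ^ (m + 1) = ⊥ := by
  have ev : ∀ r, p.1.eval r = r ^ 2 + p.1.coeff 1 * r + p.1.coeff 0 := fun r => by
    have : p.1.coeff 2 = 1 := by rw [← hp]; exact p.2.2
    rw [eval_eq_sum_range, hp]
    simp only [Finset.sum_range_succ, Finset.sum_range_zero, this]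
    ring
  have ne : ∀ r, p.1.eval r ≠ 0 := fun r k => by
    have := degree_eq_one_of_irreducible_of_root p.2.1 k
    have e : p.1.natDegree = 1 := natDegree_eq_of_degree_eq_some this
    omega
  have a0 : p.1.coeff 1 ^ 2 - 4 * p.1.coeff 0 ≠ 0 := fun k => ne (-p.1.coeff 1 / 2) (by
    rw [ev]; field_simp; linear_combination -k)
  rw [eq_bot_iff]
  intro x hx
  rw [Ideal.mem_bot]
  refine pow_induction (p := fun x => x = 0) hx (fun u l hl hl' => ?_)
    fun a b ha hb => by rw [ha, hb, add_zero]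
  have k := Ideal.mul_mem_mul (pf_mem hl') (one_sub_mem a0)
  rw [← pow_succ, hl, hE, Ideal.mem_bot] at k
  rcases repr_of_sim h2 hl' a0 (by linear_combination -k) with z | ⟨s, x, y, s0, hy, rep⟩
  · rw [z, mul_zero]
  have e : -y = p.1.eval ((x / s - p.1.coeff 1) / 2) * (2 * s * (2 * s)) := by
    rw [ev]; field_simp; linear_combination rep
  have t : 2 * s ≠ 0 := mul_ne_zero h2 s0
  obtain ⟨ψ, hψ, e2⟩ := slot hl' hy (neg_ne_zero.1 (e ▸ mul_ne_zero (ne _) (mul_ne_zero t t)))
  rw [hl, Nat.add_sub_cancel] at hψ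
  rw [e, map_mul, map_mul (c E) (2 * s), c_sq t, mul_one] at e2
  rw [e2, mul_comm _ ψ, dn_res p hp hK hψ, mul_zero]

theorem dn_quad {E K : Type u} [Field E] [Field K] [Algebra E K] (h2 : (2 : E) ≠ 0)
    (hd : finrank E K = 2) {m N : ℕ} (hK : J K ^ (m + 1) = ⊥) (hE : J E ^ (m + 1 + N) = ⊥) :
    J E ^ (m + 1) = ⊥ := by
  have : FiniteDimensional E K := Module.finite_of_finrank_pos (by omega)
  obtain ⟨θ, hθ⟩ : ∃ θ : K, θ ∉ (algebraMap E K).range := by
    by_contra k
    push Not at k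
    have := (LinearEquiv.ofBijective (Algebra.linearMap E K)
      ⟨(algebraMap E K).injective, k⟩).finrank_eq
    rw [finrank_self] at this
    omega
  have hi : IsIntegral E θ := .of_finite E θ
  obtain ⟨p, hp⟩ : ∃ p : Irr E, p.1 = minpoly E θ :=
    ⟨⟨_, minpoly.irreducible hi, minpoly.monic hi⟩, rfl⟩
  have hp1 : p.1.eval₂ (algebraMap E K) θ = 0 := by rw [hp]; exact minpoly.aeval E θ
  let ι : AdjoinRoot p.1 →+* K := AdjoinRoot.lift (algebraMap E K) θ hp1
  let _ : Algebra (AdjoinRoot p.1) K := ι.toAlgebra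
  have : IsScalarTower E (AdjoinRoot p.1) K :=
    .of_algebraMap_eq fun a => (AdjoinRoot.lift_of hp1).symm
  have hm := Module.finrank_mul_finrank E (AdjoinRoot p.1) K
  have hd' : finrank E (AdjoinRoot p.1) = p.1.natDegree := by
    rw [(AdjoinRoot.powerBasis p.2.1.ne_zero).finrank, AdjoinRoot.powerBasis_dim]
  have g1 : 2 ≤ p.1.natDegree := by rw [hp]; exact (minpoly.two_le_natDegree_iff hi).2 hθ
  have g2 : p.1.natDegree = 2 :=
    le_antisymm (by rw [hp, ← hd]; exact minpoly.natDegree_le θ) g1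
  rw [hd', g2, hd] at hm
  have hA : J (AdjoinRoot p.1) ^ (m + 1) = ⊥ :=
    odd_desc _ K (by rw [show finrank (AdjoinRoot p.1) K = 1 by omega]; exact odd_one) hK
  induction N with
  | zero => exact hE
  | succ N ih =>
    refine ih ?_
    rw [show m + 1 + N = m + N + 1 by ring]
    refine dn_irr h2 p g2 ?_ (by rw [← hE]; congr 1; ring)
    rw [show m + N + 1 = m + 1 + N by ring, pow_add, hA, Ideal.bot_mul]

theorem dn_pow (n : ℕ) {m N : ℕ} : ∀ (K L : Type u) [Field K] [Field L] [Algebra K L]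
    [FiniteDimensional K L] [IsGalois K L], finrank K L = 2 ^ n → (2 : K) ≠ 0 →
    J K ^ (m + N + 1) = ⊥ → J L ^ (m + 1) = ⊥ → J K ^ (m + 1) = ⊥ := by
  induction n with
  | zero =>
    intro K L _ _ _ _ _ h _ _ hL
    exact odd_desc K L (by rw [h]; exact odd_one) hL
  | succ n ih =>
    intro K L _ _ _ _ _ h h2 hK hL
    obtain ⟨H, hH⟩ := Sylow.exists_subgroup_card_pow_prime (G := Gal(L / K)) 2 (n := n)
      (by rw [IsGalois.card_aut_eq_finrank, h]; exact pow_dvd_pow 2 n.le_succ)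
    have h1 : finrank (IntermediateField.fixedField H) L = 2 ^ n := by
      rw [IntermediateField.finrank_fixedField_eq_card, hH]
    have h3 : finrank K (IntermediateField.fixedField H) = 2 := by
      have := Module.finrank_mul_finrank K (IntermediateField.fixedField H) L
      rw [h1, h, pow_succ, mul_comm] at this
      exact Nat.eq_of_mul_eq_mul_left (by positivity) this
    refine dn_quad h2 h3 (N := N) (ih (IntermediateField.fixedField H) L h1 ?_
      (quad_step h2 h3.le hK) hL) (by rw [← hK]; congr 1; ring)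
    simpa [map_ofNat] using (map_ne_zero (algebraMap K (IntermediateField.fixedField H))).2 h2

/-- Going down along a finite Galois extension. -/
theorem going_down (K L : Type u) [Field K] [Field L] [Algebra K L] [FiniteDimensional K L]
    [IsGalois K L] (h2 : (2 : K) ≠ 0) {m N : ℕ} (hK : J K ^ (N + 1) = ⊥) (hL : J L ^ (m + 1) = ⊥) :
    J K ^ (m + 1) = ⊥ := by
  obtain ⟨P⟩ : Nonempty (Sylow 2 Gal(L / K)) := inferInstance
  obtain ⟨n, hn⟩ := IsPGroup.iff_card.1 P.isPGroup'
  set E := IntermediateField.fixedField (P : Subgroup Gal(L / K)) with hE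
  have h1 : finrank E L = 2 ^ n := by rw [IntermediateField.finrank_fixedField_eq_card, hn]
  have h3 : finrank K E = (P : Subgroup Gal(L / K)).index := by
    rw [IntermediateField.finrank_eq_fixingSubgroup_index,
      IntermediateField.fixingSubgroup_fixedField]
  have hodd : Odd (finrank K E) := by
    rw [h3, ← Nat.not_even_iff_odd, even_iff_two_dvd]
    exact P.not_dvd_index
  have hfin : J E ^ (N + (finrank K E + 1)) = ⊥ := finite_ext h2 fun q hq =>
    tower h2 hK _ q (hq.trans_lt ((Nat.lt_pow_self (by norm_num)).trans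
      (Nat.pow_lt_pow_right (by norm_num) (Nat.lt_succ_self _))))
  refine odd_desc K E hodd (dn_pow n (N := N + finrank K E) E L h1 ?_ ?_ hL)
  · simpa [map_ofNat] using (map_ne_zero (algebraMap K E)).2 h2
  · rw [show m + (N + finrank K E) + 1 = N + (finrank K E + 1) + m by ring, pow_add, hfin,
      Ideal.bot_mul]

end Pool.Agent.Lib.MP_887a05_al.L3
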