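import Pool.Agent.Lib.MP_887a05_al.L3Main

/-!
Induction over abelian extensions of odd exponent, from the vanishing of sums of conjugates in
Galois extensions of prime degree.
-/

namespace Pool.Agent.Lib.MP_887a05_al.L3

open Module

universe u

/-- A finite commutative group killed by `e` with at most `p` solutions of `x ^ p = 1` for each
prime divisor `p` of `e` has at most `e` elements. -/
theorem grp_card_le {G : Type*} [Group G] [Fintype G] [DecidableEq G]
    (hc : ∀ a b : G, Commute a b) {e : ℕ} (he : e ≠ 0) (h : ∀ a : G, a ^ e = 1)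
    (hp : ∀ p : ℕ, p.Prime → p ∣ e → (Finset.univ.filter fun a : G => a ^ p = 1).card ≤ p) :
    Fintype.card G ≤ e := by
  have key : ∀ n : ℕ, n ∣ e → (Finset.univ.filter fun a : G => a ^ n = 1).card ≤ n := by
    intro n
    induction n using induction_on_primes with
    | zero => intro h0; exact absurd (zero_dvd_iff.1 h0) he
    | one =>
      intro _
      exact Finset.card_le_one.2 fun a ha b hb => by
        simp only [pow_one, Finset.mem_filter, Finset.mem_univ, true_and] at ha hb
        rw [ha, hb]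
    | prime_mul p n pp ih =>
      intro hd
      let f : G →* G := ⟨⟨fun a => a ^ p, one_pow p⟩, fun a b => (hc a b).mul_pow p⟩
      have hf : ∀ a, f a = a ^ p := fun _ => rfl
      refine le_trans (Finset.card_le_mul_card_image_of_maps_to (f := f)
        (t := Finset.univ.filter fun a : G => a ^ n = 1) ?_ p ?_)
        (Nat.mul_le_mul_left p (ih (dvd_of_mul_left_dvd hd)))
      · intro a ha
        simp only [Finset.mem_filter, Finset.mem_univ, true_and] at ha ⊢
        rw [hf, ← pow_mul, ha]
      · intro b _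
        by_cases hb : b ∈ Set.range f
        · refine le_trans ?_ (hp p pp (dvd_of_mul_right_dvd hd))
          have := MonoidHom.card_fiber_eq_of_mem_range f hb ⟨1, map_one f⟩
          refine le_trans (Finset.card_le_card ?_) this.le
          intro a ha
          simp only [Finset.mem_filter, Finset.mem_univ, true_and] at ha ⊢
          exact ha.2
        · rw [Finset.card_eq_zero.2]
          · exact Nat.zero_le p
          · exact Finset.filter_eq_empty_iff.2 fun a _ ha => hb ⟨a, ha⟩
  have := key e dvd_rfl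
  rwa [Finset.filter_true_of_mem fun a _ => h a, Finset.card_univ] at this

section abelian

variable {F K : Type u} [Field F] [Field K] [Algebra F K]

/-- The action of an automorphism on the ring of symbols. -/
noncomputable def gact (σ : Gal(K / F)) : R K →+* R K := map (σ : K →+* K) σ.injective

theorem gact_c (σ : Gal(K / F)) (a : K) : gact σ (c K a) = c K (σ a) := map_c _ _ a

theorem gact_mul (σ τ : Gal(K / F)) (x : R K) : gact (σ * τ) x = gact σ (gact τ x) := by
  induction x using induction_on with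
  | h1 a => simp only [gact_c]; rfl
  | hadd x y hx hy => simp only [map_add, hx, hy]

theorem gact_one (x : R K) : gact (1 : Gal(K / F)) x = x := by
  induction x using induction_on with
  | h1 a => simp only [gact_c]; rfl
  | hadd x y hx hy => simp only [map_add, hx, hy]

theorem gact_congr {E : Type u} [Field E] [Algebra E K] {σ : Gal(K / F)} {τ : Gal(K / E)}
    (h : ∀ a, σ a = τ a) (x : R K) : gact σ x = gact τ x := by
  induction x using induction_on with
  | h1 a => simp only [gact_c, h]
  | hadd x y hx hy => simp only [map_add, hx, hy]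

theorem grp_finrank [Module.Finite F K] {p : ℕ} [Fact p.Prime] {ρ : Gal(K / F)}
    (h1 : ρ ≠ 1) (h3 : ρ ^ p = 1) :
    finrank (IntermediateField.fixedField (Subgroup.zpowers ρ)) K = p := by
  rw [IntermediateField.finrank_fixedField_eq_card, Nat.card_zpowers, orderOf_eq_prime h3 h1]

theorem grp_norm [Module.Finite F K] [IsGalois F K] {p : ℕ} [Fact p.Prime] {ρ : Gal(K / F)}
    (h1 : ρ ≠ 1) (h3 : ρ ^ p = 1) (φ : R K)
    (key : ∑ g : Gal(K / IntermediateField.fixedField (Subgroup.zpowers ρ)), gact g φ = 0) :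
    ∑ i : Fin p, gact (ρ ^ (i : ℕ)) φ = 0 := by
  classical
  have hr := grp_finrank h1 h3
  set E := IntermediateField.fixedField (Subgroup.zpowers ρ) with hE
  let ρ' : Gal(K / E) := AlgEquiv.ofRingEquiv (f := ρ.toRingEquiv)
    (fun x => x.2 ⟨ρ, Subgroup.mem_zpowers ρ⟩)
  have h1' : ρ' ≠ 1 := by
    intro h; apply h1
    ext x
    exact congrArg (fun f : Gal(K / E) => f x) h
  have hcard : Fintype.card Gal(K / E) = p := by
    rw [← Nat.card_eq_fintype_card, IsGalois.card_aut_eq_finrank, hr]
  have ho : orderOf ρ' = p := orderOf_eq_prime (by rw [← hcard]; exact pow_card_eq_one) h1'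
  have hbij : Function.Bijective fun i : Fin p => ρ' ^ (i : ℕ) := by
    rw [Fintype.bijective_iff_injective_and_card]
    refine ⟨fun i j hij => Fin.ext (pow_injOn_Iio_orderOf ?_ ?_ hij), by simp [hcard]⟩
    · simp [ho]
    · simp [ho]
  rw [← key, ← hbij.sum_comp]
  refine Finset.sum_congr rfl fun i _ => gact_congr (fun x => ?_) φ
  simp only [AlgEquiv.coe_pow]
  rfl

/-- The reduction for `C_p × C_p`. -/
theorem grp_pair {p : ℕ} [hp : Fact p.Prime] {σ τ : Gal(K / F)} (hcm : Commute σ τ)
    (hσ : σ ^ p = 1) (hτ : τ ^ p = 1) (h1 : τ ≠ 1) (h3 : ∀ j : Fin p, σ * τ ^ (j : ℕ) ≠ 1)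
    (φ : R K) (hk : ∀ ρ : Gal(K / F), ρ ≠ 1 → ρ ^ p = 1 → ∑ i : Fin p, gact (ρ ^ (i : ℕ)) φ = 0) :
    (p : R K) * φ = 0 := by
  have : NeZero p := ⟨hp.out.ne_zero⟩
  have n1 : ∑ j : Fin p, ∑ i : Fin p, gact ((σ * τ ^ (j : ℕ)) ^ (i : ℕ)) φ = 0 := by
    refine Finset.sum_eq_zero fun j _ => hk _ (h3 j) ?_
    rw [(hcm.pow_right _).mul_pow, hσ, ← pow_mul, mul_comm, pow_mul, hτ]; simp
  rw [Finset.sum_comm, Finset.sum_eq_single (0 : Fin p) ?_ (by simp)] at n1
  · simpa only [Fin.val_zero, pow_zero, gact_one, Finset.sum_const, Finset.card_univ,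
      Fintype.card_fin, nsmul_eq_mul] using n1
  · intro i _ hi
    have e1 : τ ^ (i : ℕ) ≠ 1 := by
      refine pow_ne_one_of_lt_orderOf (fun h => hi (Fin.ext h)) ?_
      rw [orderOf_eq_prime hτ h1]; exact i.2
    have e2 : (τ ^ (i : ℕ)) ^ p = 1 := by rw [← pow_mul, mul_comm, pow_mul, hτ, one_pow]
    have n2 := congrArg (gact (σ ^ (i : ℕ))) (hk _ e1 e2)
    rw [map_sum, map_zero] at n2
    rw [← n2]
    refine Finset.sum_congr rfl fun j _ => ?_
    rw [← gact_mul, (hcm.pow_right _).mul_pow, ← pow_mul, ← pow_mul, mul_comm (j : ℕ)]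

theorem grp_two_pow {E : Type u} [Field E] [Algebra E K] {k : ℕ} (h : J E ^ k = ⊥) :
    (2 : R K) ^ k = 0 := by
  have two : (2 : R E) ∈ J E := by
    have := one_sub_mem (D := E) (a := -1) (by simp)
    rwa [c_neg, map_one, sub_neg_eq_add, one_add_one_eq_two] at this
  have : (2 : R E) ^ k = 0 := by
    rw [← Ideal.mem_bot, ← h]
    exact Ideal.pow_mem_pow two _
  have := congrArg (map (algebraMap E K) (algebraMap E K).injective) this
  rwa [map_pow, map_ofNat, map_zero] at this

end abelian

/-- Induction over abelian extensions of odd exponent. -/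
theorem abel (F : Type u) [Field F] (e m : Nat) (he : Odd e)
    (T : ∀ (E K : Type u) [Field E] [Field K] [Algebra E K] [FiniteDimensional E K] [IsGalois E K],
      (Module.finrank E K).Prime → J E ^ (m+1) = ⊥ → ∀ phi ∈ J K ^ (m+1),
        ∑ sigma : Gal(K/E), map (sigma : K →+* K) sigma.injective phi = 0)
    (base : ∀ (K : Type u) [Field K] [Algebra F K] [FiniteDimensional F K],
      Module.finrank F K ≤ e → J K ^ (m+1) = ⊥)
    (K : Type u) [Field K] [Algebra F K] [FiniteDimensional F K] [IsAbelianGalois F K]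
    (h : ∀ sigma : Gal(K/F), sigma ^ e = 1) : J K ^ (m+1) = ⊥ := by
  induction hn : finrank F K using Nat.strong_induction_on generalizing K with
  | _ n ih =>
  classical
  have hc : ∀ a b : Gal(K / F), Commute a b := fun a b => IsMulCommutative.is_comm.comm a b
  by_cases hT : ∀ p : ℕ, p.Prime → p ∣ e →
      (Finset.univ.filter fun a : Gal(K / F) => a ^ p = 1).card ≤ p
  · refine base K ?_
    rw [← IsGalois.card_aut_eq_finrank, Nat.card_eq_fintype_card]
    exact grp_card_le hc he.pos.ne' h hT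
  push Not at hT
  obtain ⟨p, pp, hd, hT⟩ := hT
  have : Fact p.Prime := ⟨pp⟩
  have hex : ∀ s : Finset Gal(K / F), s.card ≤ p → ∃ τ : Gal(K / F), τ ^ p = 1 ∧ τ ∉ s := by
    intro s hs
    obtain ⟨τ, h1, h2⟩ := Finset.exists_mem_notMem_of_card_lt_card (hs.trans_lt hT)
    exact ⟨τ, (Finset.mem_filter.1 h1).2, h2⟩
  obtain ⟨τ, hτ, h1⟩ := hex {1} (by simpa using pp.one_le)
  obtain ⟨σ, hσ, h3⟩ := hex (Finset.univ.image fun j : Fin p => (τ ^ (j : ℕ))⁻¹)
    (Finset.card_image_le.trans (by simp))
  have h1' : τ ≠ 1 := by simpa using h1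
  have hk : ∀ ρ : Gal(K / F), ρ ≠ 1 → ρ ^ p = 1 →
      J (IntermediateField.fixedField (Subgroup.zpowers ρ)) ^ (m + 1) = ⊥ := by
    intro ρ hρ1 hρ3
    have hr := grp_finrank hρ1 hρ3
    set E := IntermediateField.fixedField (Subgroup.zpowers ρ)
    have hm := Module.finrank_mul_finrank F E K
    have hpos : 0 < finrank F E := Module.finrank_pos
    have h1p := pp.one_lt
    refine ih (finrank F E) (by rw [hr, hn] at hm; nlinarith) E (fun g => ?_) rfl
    obtain ⟨g, rfl⟩ := AlgEquiv.restrictNormalHom_surjective K g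
    rw [← map_pow, h, map_one]
  rw [eq_bot_iff]
  intro φ hφ
  have n1 := grp_pair (hc σ τ) hσ hτ h1'
    (fun j hj => h3 (Finset.mem_image.2 ⟨j, Finset.mem_univ _,
      (eq_inv_of_mul_eq_one_left hj).symm⟩)) φ fun ρ hρ1 hρ3 =>
      grp_norm hρ1 hρ3 φ (T _ K (by rw [grp_finrank hρ1 hρ3]; exact pp) (hk ρ hρ1 hρ3) φ hφ)
  have hnil : (2 : R K) ^ (m + 1) = 0 := grp_two_pow (hk τ h1' hτ)
  obtain ⟨k, hk'⟩ := he.of_dvd_nat hd
  have hu : IsUnit (1 + 2 * k : R K) :=
    IsNilpotent.isUnit_one_add ⟨m + 1, by rw [mul_pow, hnil, zero_mul]⟩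
  rw [Ideal.mem_bot]
  apply hu.mul_left_cancel
  have : (p : R K) = 2 * k + 1 := by rw [hk']; push_cast; rfl
  rw [this] at n1
  linear_combination n1

end Pool.Agent.Lib.MP_887a05_al.L3
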