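import Pool.Agent.Lib.MP_887a05_al.OE.Two

/-! Galois extensions of `2`-power degree cost nothing. -/

namespace Pool.Agent.Lib.MP_887a05_al.L3

open Polynomial Module

universe u

theorem two_power (n : ℕ) {m : ℕ} : ∀ (K L : Type u) [Field K] [Field L] [Algebra K L]
    [FiniteDimensional K L] [IsGalois K L], finrank K L = 2 ^ n → (2 : K) ≠ 0 →
    J K ^ (m + 1) = ⊥ → J L ^ (m + 1) = ⊥ := by
  induction n with
  | zero =>
    intro K L _ _ _ _ _ h h2 hK
    exact quad_step h2 (by omega) hK
  | succ n ih =>
    intro K L _ _ _ _ _ h h2 hK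
    obtain ⟨H, hH⟩ := Sylow.exists_subgroup_card_pow_prime (G := Gal(L / K)) 2 (n := n)
      (by rw [IsGalois.card_aut_eq_finrank, h]; exact pow_dvd_pow 2 n.le_succ)
    have h1 : finrank (IntermediateField.fixedField H) L = 2 ^ n := by
      rw [IntermediateField.finrank_fixedField_eq_card, hH]
    have h3 : finrank K (IntermediateField.fixedField H) = 2 := by
      have := Module.finrank_mul_finrank K (IntermediateField.fixedField H) L
      rw [h1, h, pow_succ, mul_comm] at this
      exact Nat.eq_of_mul_eq_mul_left (by positivity) this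
    refine ih (IntermediateField.fixedField H) L h1 ?_ (quad_step h2 h3.le hK)
    simpa [map_ofNat] using (map_ne_zero (algebraMap K (IntermediateField.fixedField H))).2 h2

end Pool.Agent.Lib.MP_887a05_al.L3
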