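import Pool.Agent.Lib.MP_887a05_al.OE.Nrm
import Pool.Agent.Lib.MP_887a05_al.OE.Grp
import Pool.Agent.Lib.MP_887a05_al.OE.Two

/-! Norm relations with odd denominator. -/

namespace Pool.Agent.Lib.MP_887a05_al.L3

open Module IntermediateField

universe u

variable {F K : Type u} [Field F] [Field K] [Algebra F K]

theorem nrm_top [FiniteDimensional F K] [IsGalois F K] {θ : K}
    (h : ∀ σ : Gal(K / F), σ θ = θ → σ = 1) (y : K) : ∃ g : Polynomial F, Polynomial.aeval θ g = y := by
  have e : (adjoin F {θ}).fixingSubgroup = ⊥ := eq_bot_iff.2 fun σ k =>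
    h σ (k ⟨θ, mem_adjoin_simple_self F θ⟩)
  have e' := IsGalois.fixedField_fixingSubgroup (adjoin F {θ})
  rw [e, fixedField_bot] at e'
  have : y ∈ (adjoin F {θ}).toSubalgebra := by rw [← e']; trivial
  rwa [adjoin_simple_toSubalgebra_of_isAlgebraic (Algebra.IsAlgebraic.isAlgebraic θ),
    Algebra.adjoin_singleton_eq_range_aeval] at this

/-- The sum of the conjugates vanishes, for every finite Galois extension. -/
theorem norm_all (E K : Type u) [Field E] [Field K] [Algebra E K] [FiniteDimensional E K]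
    [IsGalois E K] {m : ℕ} (hE : J E ^ (m + 1) = ⊥) :
    ∀ φ ∈ J K ^ (m + 1), ∑ σ : Gal(K/E), map (σ : K →+* K) σ.injective φ = 0 := by
  let G : K → Prop := fun x => ∀ φ ∈ J K ^ m,
    ∑ σ : Gal(K/E), map (σ : K →+* K) σ.injective (φ * (1 - c K x)) = 0
  have g1 : G 1 := fun φ _ => by simp
  have gm : ∀ x y, G x → G y → G (x * y) := fun x y hx hy φ hφ => by
    have := congrArg₂ (· + ·) (hx φ hφ) (hy _ (Ideal.mul_mem_left _ (c K x) hφ))
    simp only [← Finset.sum_add_distrib, ← map_add, add_zero] at this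
    refine Eq.trans (Finset.sum_congr rfl fun σ _ => congrArg _ ?_) this
    rw [map_mul]
    ring
  have one : ∀ x ≠ 0, (∀ σ : Gal(K / E), σ x = x → σ = 1) → G x := fun x x0 hx φ hφ => by
    by_cases x1 : x - 1 = 0
    · exact sub_eq_zero.1 x1 ▸ g1 φ hφ
    have n1 : 1 - x / (x - 1) ≠ 0 := by
      rw [one_sub_div x1]
      simp [x1]
    have := norm_slot hE (θ := x / (x - 1)) (nrm_top fun σ k => hx σ (by
      have s1 : σ x - 1 ≠ 0 := by simpa using (_root_.map_ne_zero σ).2 x1
      rw [map_div₀, map_sub, map_one, div_eq_div_iff s1 x1] at k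
      linear_combination -k)) (div_ne_zero x0 x1)
      (sub_ne_zero.1 n1).symm (Ideal.mul_mem_left _ (-c K (1 - x / (x - 1))) hφ)
    have e : -(x / (x - 1)) = x * (1 - x / (x - 1)) := by
      field_simp
      ring
    rw [e, map_mul] at this
    refine Eq.trans (Finset.sum_congr rfl fun σ _ => congrArg _ ?_) this
    linear_combination (-(φ * (1 - c K x))) * c_sq n1
  have all : ∀ x ≠ 0, G x := fun x x0 => by
    by_cases hx : ∀ σ : Gal(K / E), σ x = x → σ = 1
    · exact one x x0 hx
    push Not at hx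
    obtain ⟨τ, -, τ1⟩ := hx
    cases finite_or_infinite E with
    | inl _ =>
      have : Finite K := Module.finite_of_finite E
      obtain ⟨g, hg⟩ := IsCyclic.exists_monoid_generator (α := Kˣ)
      have pw : ∀ z ≠ (0 : K), ∃ n : ℕ, z = g.1 ^ n := fun z z0 => by
        obtain ⟨n, e⟩ := hg (Units.mk0 z z0)
        exact ⟨n, by simpa using (congrArg Units.val e).symm⟩
      have gg := one g.1 g.ne_zero fun σ k => AlgEquiv.ext fun z => by
        by_cases z0 : z = 0
        · simp [z0]
        obtain ⟨n, rfl⟩ := pw z z0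
        rw [map_pow, k]
        rfl
      obtain ⟨n, rfl⟩ := pw x x0
      clear x0
      induction n with
      | zero => simpa using g1
      | succ n ih => rw [pow_succ]; exact gm _ _ ih gg
    | inr _ =>
      let W : {σ : Gal(K / E) // σ ≠ 1} × Bool → Subspace E K := fun i => LinearMap.ker
        ((i.1.1.toLinearMap - LinearMap.id) ∘ₗ LinearMap.mulLeft E (if i.2 then x else 1))
      have hW : ∀ i y, y ∈ W i ↔ i.1.1 ((if i.2 then x else 1) * y) = (if i.2 then x else 1) * y :=
        fun i y => by simp [W, sub_eq_zero]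
      obtain ⟨y, hy⟩ : ∃ y, ∀ i, y ∉ W i := by
        by_contra! k
        obtain ⟨i, hi⟩ := Subspace.exists_eq_top_of_iUnion_eq_univ (p := W)
          (Set.eq_univ_of_forall fun y => Set.mem_iUnion.2 (k y))
        have z0 : (if i.2 then x else 1) ≠ 0 := by split_ifs <;> simp [x0]
        refine i.1.2 (AlgEquiv.ext fun z => ?_)
        have := (hW i ((if i.2 then x else 1)⁻¹ * z)).1 (hi ▸ trivial)
        rwa [mul_inv_cancel_left₀ z0] at this
      have y0 : y ≠ 0 := fun e => hy (⟨τ, τ1⟩, true) (e ▸ zero_mem _)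
      have a := one (x * y) (mul_ne_zero x0 y0) fun σ k => by_contra fun s =>
        hy (⟨σ, s⟩, true) ((hW _ _).2 (by simpa only [if_true] using k))
      have b := one y⁻¹ (inv_ne_zero y0) fun σ k => by_contra fun s =>
        hy (⟨σ, s⟩, false) ((hW _ _).2 (by simpa using k))
      have := gm _ _ a b
      rwa [mul_inv_cancel_right₀ y0] at this
  intro φ hφ
  refine pow_induction (p := fun φ => ∑ σ : Gal(K/E), map (σ : K →+* K) σ.injective φ = 0) hφ
    (fun u l h1 h2 => ?_) fun x y a b => by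
      simp only [map_add, Finset.sum_add_distrib, a, b, add_zero]
  obtain _ | ⟨x, l⟩ := l
  · simp at h1
  have := pf_mem (l := l) fun a ha => h2 a (by simp [ha])
  rw [show l.length = m by simpa using h1] at this
  rw [pf_cons, mul_comm (1 - c K x), ← mul_assoc]
  exact all x (h2 x (by simp)) _ (Ideal.mul_mem_left _ _ this)

theorem nrm_mem (σ : Gal(K / F)) {m : ℕ} {x : R K} (hx : x ∈ J K ^ m) : gact σ x ∈ J K ^ m := by
  have h : (J K).map (gact σ) ≤ J K := by
    rw [J, Ideal.map_span, Ideal.span_le]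
    rintro _ ⟨_, ⟨a, ha, rfl⟩, rfl⟩
    rw [map_sub, map_one, gact_c]
    exact one_sub_mem (by simpa using ha)
  exact Ideal.pow_right_mono h m (Ideal.map_pow (gact σ) _ m ▸ Ideal.mem_map_of_mem _ hx)

/-- The action of the Galois group by additive maps. -/
noncomputable def nrmAct (F K : Type u) [Field F] [Field K] [Algebra F K] :
    Gal(K / F) →* Module.End ℤ (R K) where
  toFun σ := (gact σ).toAddMonoidHom.toIntLinearMap
  map_one' := LinearMap.ext gact_one
  map_mul' σ τ := LinearMap.ext (gact_mul σ τ)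

theorem nrm_idx [FiniteDimensional F K] [IsGalois F K] (V : Subgroup Gal(K / F)) :
    finrank F (fixedField V) = V.index := by
  rw [finrank_eq_fixingSubgroup_index, fixingSubgroup_fixedField]

theorem nrm_up [FiniteDimensional F K] [IsGalois F K] (h2 : (2 : F) ≠ 0) {m : ℕ}
    {V H : Subgroup Gal(K / F)}
    (r : Relation.ReflTransGen (fun A B : Subgroup Gal(K / F) => B ≤ A ∧ B.relIndex A = 2) V H)
    (h : J (fixedField V) ^ (m + 1) = ⊥) : J (fixedField H) ^ (m + 1) = ⊥ := by
  induction r with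
  | refl => exact h
  | @tail A B _ k ih =>
    have le : fixedField A ≤ fixedField B := fun x hx g => hx ⟨g.1, k.1 g.2⟩
    let _ : Algebra (fixedField A) (fixedField B) := (inclusion le).toRingHom.toAlgebra
    have : IsScalarTower F (fixedField A) (fixedField B) := .of_algebraMap_eq fun _ => rfl
    have : FiniteDimensional (fixedField A) (fixedField B) :=
      Module.Finite.of_restrictScalars_finite F _ _
    have e := Module.finrank_mul_finrank F (fixedField A) (fixedField B)
    have e' := Subgroup.relIndex_mul_index k.1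
    rw [nrm_idx, nrm_idx, ← e', k.2, mul_comm] at e
    have p : 0 < A.index := Nat.pos_of_ne_zero Subgroup.index_ne_zero_of_finite
    refine quad_step ?_ (Nat.eq_of_mul_eq_mul_right p e).le ih
    simpa [map_ofNat] using (map_ne_zero (algebraMap F (fixedField A))).2 h2

theorem nrm [FiniteDimensional F K] [IsGalois F K] (h2 : (2 : F) ≠ 0) {n m d : ℕ} (hd : Odd d)
    (T : ∀ (E : Type u) [Field E] [Algebra E K] [FiniteDimensional E K] [IsGalois E K],
      J E ^ (m + 1) = ⊥ → ∀ φ ∈ J K ^ (m + 1), ∑ σ : Gal(K / E), gact σ φ = 0)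
    (base : ∀ (E : Type u) [Field E] [Algebra F E] [FiniteDimensional F E],
      finrank F E ≤ n → J E ^ (m + 1) = ⊥) (hn : 1 ≤ n)
    (h : (d : MonoidAlgebra ℤ Gal(K / F)) ∈ TwoSidedIdeal.span
      {x | ∃ V H : Subgroup Gal(K / F), V.index ≤ n ∧
        Relation.ReflTransGen (fun A B : Subgroup Gal(K / F) => B ≤ A ∧ B.relIndex A = 2) V H ∧
        x = ∑ᶠ σ ∈ H, MonoidAlgebra.of ℤ Gal(K / F) σ}) : J K ^ (m + 1) = ⊥ := by
  classical
  let ρ := MonoidAlgebra.lift ℤ (Module.End ℤ (R K)) Gal(K / F) (nrmAct F K)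
  have ρo : ∀ σ φ, ρ (MonoidAlgebra.of ℤ _ σ) φ = gact σ φ := fun σ φ => by
    rw [MonoidAlgebra.lift_of]; rfl
  have st : ∀ y, ∀ φ ∈ J K ^ (m + 1), ρ y φ ∈ J K ^ (m + 1) := fun y φ hφ => by
    induction y using MonoidAlgebra.induction_on with
    | of σ => rw [ρo]; exact nrm_mem σ hφ
    | add a b ha hb => rw [map_add]; exact add_mem ha hb
    | smul r a ha => rw [map_smul]; exact zsmul_mem ha r
  have key : ∀ φ ∈ J K ^ (m + 1), ρ d φ = 0 := by
    generalize (d : MonoidAlgebra ℤ Gal(K / F)) = x at h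
    induction h using TwoSidedIdeal.span_induction with
    | mem x hx =>
      obtain ⟨V, H, i, r, rfl⟩ := hx
      intro φ hφ
      have k := T (fixedField H) (nrm_up h2 r (base _ ((nrm_idx V).trans_le i))) φ hφ
      rw [← k, ← (subgroupEquivAlgEquiv H).toEquiv.sum_comp]
      have e : ∑ᶠ σ ∈ H, MonoidAlgebra.of ℤ Gal(K / F) σ =
          ∑ σ : H, MonoidAlgebra.of ℤ Gal(K / F) σ.1 := by
        rw [← finsum_eq_sum_of_fintype]
        exact (finsum_subtype_eq_finsum_cond (f := fun σ => MonoidAlgebra.of ℤ Gal(K / F) σ) (· ∈ H)).symm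
      rw [e, map_sum, LinearMap.sum_apply]
      exact Finset.sum_congr rfl fun σ _ => (ρo _ _).trans (gact_congr (fun _ => rfl) φ)
    | zero => intro φ _; rw [map_zero]; rfl
    | add x y _ _ hx hy => intro φ hφ; rw [map_add, LinearMap.add_apply, hx φ hφ, hy φ hφ, add_zero]
    | neg x _ hx => intro φ hφ; rw [map_neg, LinearMap.neg_apply, hx φ hφ, neg_zero]
    | left_absorb a x _ hx => intro φ hφ; rw [map_mul, Module.End.mul_apply, hx φ hφ, map_zero]
    | right_absorb b x _ hx => intro φ hφ; rw [map_mul, Module.End.mul_apply, hx _ (st b φ hφ)]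
  rw [eq_bot_iff]
  intro φ hφ
  have n1 := key φ hφ
  rw [map_natCast, Module.End.natCast_apply, nsmul_eq_mul] at n1
  have hnil : (2 : R K) ^ (m + 1) = 0 := grp_two_pow (base F (by simpa using hn))
  obtain ⟨k, rfl⟩ := hd
  have hu : IsUnit (1 + 2 * k : R K) :=
    IsNilpotent.isUnit_one_add ⟨m + 1, by rw [mul_pow, hnil, zero_mul]⟩
  rw [Ideal.mem_bot]
  apply hu.mul_left_cancel
  push_cast at n1
  linear_combination n1

end Pool.Agent.Lib.MP_887a05_al.L3
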