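import Mathlib

/-! Finite commutative groups have norm relations with odd denominator. -/

namespace Pool.Agent.Lib.MP_887a05_al.RelAb

variable {G : Type*} [CommGroup G] [Finite G]

theorem chain {a : ℕ} {V H : Subgroup G} (le : H ≤ V) (h : ∀ g ∈ V, g ^ 2 ^ a ∈ H) :
    Relation.ReflTransGen (fun A B : Subgroup G => B ≤ A ∧ B.relIndex A = 2) V H := by
  induction H using WellFoundedGT.induction with
  | ind H ih =>
  by_cases e : ∀ g ∈ V, g * g ∈ H → g ∈ H
  · have k : ∀ b : ℕ, ∀ g ∈ V, g ^ 2 ^ b ∈ H → g ∈ H := fun b => by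
      induction b with
      | zero => simp
      | succ b i => exact fun g hg k => i g hg (e _ (pow_mem hg _) (by
          rwa [← pow_add, ← mul_two, ← pow_succ]))
    rw [le_antisymm le fun g hg => k a g hg (h g hg)]
  push Not at e
  obtain ⟨g, gV, g2, gH⟩ := e
  let B : Subgroup G :=
    { carrier := {b | b ∈ H ∨ b * g ∈ H}
      one_mem' := .inl (one_mem H)
      mul_mem' := by
        rintro x y (p | p) (q | q)
        · exact .inl (mul_mem p q)
        · exact .inr (by rw [mul_assoc]; exact mul_mem p q)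
        · exact .inr (by rw [mul_right_comm]; exact mul_mem p q)
        · exact .inl ((mul_mem_cancel_right g2).1 (by rw [mul_mul_mul_comm]; exact mul_mem p q))
      inv_mem' := by
        rintro x (p | p)
        · exact .inl (inv_mem p)
        · exact .inr (by simpa [mul_comm, mul_left_comm, mul_assoc] using mul_mem (inv_mem p) g2) }
  have l1 : H ≤ B := fun x hx => .inl hx
  have gB : g ∈ B := .inr g2
  refine (ih B (lt_of_le_of_ne l1 fun e => gH (e ▸ gB)) ?_ fun x hx => l1 (h x hx)).tail ⟨l1, ?_⟩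
  · rintro x (p | p)
    · exact le p
    · exact (mul_mem_cancel_right gV).1 (le p)
  · refine Subgroup.relIndex_eq_two_iff.2 ⟨g, gB, ?_⟩
    rintro b (p | p)
    · exact .inr ⟨p, fun q => gH ((mul_mem_cancel_left p).1 q)⟩
    · exact .inl ⟨p, fun q => gH ((mul_mem_cancel_left q).1 p)⟩

theorem rel {a e : ℕ} (he : Odd e) (h : ∀ g : G, g ^ (2 ^ a * e) = 1) :
    ∃ d : ℕ, Odd d ∧ (d : MonoidAlgebra ℤ G) ∈ TwoSidedIdeal.span
      {x | ∃ V H : Subgroup G, V.index ≤ e ∧
        Relation.ReflTransGen (fun A B : Subgroup G => B ≤ A ∧ B.relIndex A = 2) V H ∧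
        x = ∑ᶠ σ ∈ H, MonoidAlgebra.of ℤ G σ} := by
  classical
  by_contra! no
  let S : Submonoid (MonoidAlgebra ℤ G) :=
    { carrier := {x | ∃ d : ℕ, Odd d ∧ x = d}
      one_mem' := ⟨1, odd_one, by simp⟩
      mul_mem' := by
        rintro _ _ ⟨x, p, rfl⟩ ⟨y, q, rfl⟩
        exact ⟨x * y, p.mul q, by simp⟩ }
  obtain ⟨P, pr, le, dj⟩ := Ideal.exists_le_prime_disjoint (TwoSidedIdeal.asIdeal _) S
    (Set.disjoint_left.2 fun x hx ⟨d, p, q⟩ => no d p (q ▸ hx))
  let χ : G →* MonoidAlgebra ℤ G ⧸ P := (Ideal.Quotient.mk P).toMonoidHom.comp (MonoidAlgebra.of ℤ G)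
  let ψ : G →* (MonoidAlgebra ℤ G ⧸ P)ˣ := χ.toHomUnits.comp (powMonoidHom (2 ^ a))
  let H : Subgroup G := χ.toHomUnits.ker ⊓ (powMonoidHom e : G →* G).ker
  have : NeZero e := ⟨he.pos.ne'⟩
  have i : ψ.ker.index ≤ e := by
    rw [Subgroup.index_ker]
    refine le_trans (Subgroup.card_le_of_le (K := rootsOfUnity e _) ?_) ?_
    · rintro _ ⟨g, rfl⟩
      rw [mem_rootsOfUnity, ← map_pow]
      change χ.toHomUnits ((g ^ e) ^ 2 ^ a) = 1
      rw [← pow_mul, mul_comm, h, map_one]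
    · simpa using card_rootsOfUnity (MonoidAlgebra ℤ G ⧸ P) e
  have c : Relation.ReflTransGen (fun A B : Subgroup G => B ≤ A ∧ B.relIndex A = 2) ψ.ker H :=
    chain (a := a) (fun g hg => by
      change χ.toHomUnits (g ^ 2 ^ a) = 1
      rw [map_pow, show χ.toHomUnits g = 1 from hg.1, one_pow])
      fun g hg => ⟨hg, by change (g ^ 2 ^ a) ^ e = 1; rw [← pow_mul, h]⟩
  have o : Odd (Nat.card H) := Nat.not_even_iff_odd.1 fun k => by
    obtain ⟨g, hg⟩ := exists_prime_orderOf_dvd_card' (G := H) 2 k.two_dvd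
    have : orderOf g ∣ e := orderOf_dvd_of_pow_eq_one (Subtype.ext g.2.2)
    exact (Nat.not_even_iff_odd.2 he) (even_iff_two_dvd.2 (hg ▸ this))
  have m := le (TwoSidedIdeal.subset_span ⟨_, H, i, c, rfl⟩)
  refine Set.disjoint_left.1 dj ?_ ⟨_, o, rfl⟩
  have := Fintype.ofFinite H
  rw [← finsum_subtype_eq_finsum_cond (f := fun σ => MonoidAlgebra.of ℤ G σ) (· ∈ H),
    finsum_eq_sum_of_fintype, ← Ideal.Quotient.eq_zero_iff_mem, map_sum] at m
  have k : ∀ g : H, Ideal.Quotient.mk P (MonoidAlgebra.of ℤ G g.1) = 1 := fun g =>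
    congrArg Units.val g.2.1
  rw [SetLike.mem_coe, ← Ideal.Quotient.eq_zero_iff_mem, map_natCast, ← m]
  simp only [k]
  simp

end Pool.Agent.Lib.MP_887a05_al.RelAb
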