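import Pool.Agent.Lib.MP_887a05_al.OE.Nrm

/-! Descent along finite extensions of odd degree. -/

namespace Pool.Agent.Lib.MP_887a05_al.L3

open Polynomial Module

universe u

variable {K : Type u} [Field K]

/-- The symbol at infinity. -/
noncomputable def sprInf (K : Type u) [Field K] : K[X] →* Pl.B K where
  toFun g := Pl.τ K ^ g.natDegree * algebraMap (R K) _ (c K g.leadingCoeff)
  map_one' := by simp
  map_mul' a b := by
    by_cases a0 : a = 0
    · simp [a0, c_zero]
    by_cases b0 : b = 0
    · simp [b0, c_zero]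
    rw [natDegree_mul a0 b0, leadingCoeff_mul, map_mul, map_mul, pow_add]
    ring

theorem sprInf_apply (g : K[X]) :
    sprInf K g = Pl.τ K ^ g.natDegree * algebraMap (R K) _ (c K g.leadingCoeff) := rfl

theorem sprInf_sym : IsSym (sprInf K) := by
  have z : sprInf K 0 = 0 := by simp [sprInf_apply, c_zero]
  have sq : ∀ a, a ≠ 0 → sprInf K a * sprInf K a = 1 := fun a ha => by
    rw [sprInf_apply, mul_mul_mul_comm, ← mul_pow, Pl.τ_sq, ← map_mul,
      c_sq (leadingCoeff_ne_zero.2 ha)]
    simp
  have lt : ∀ a b : K[X], a.degree < b.degree →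
      sprInf K a + sprInf K b = sprInf K (a + b) * (1 + sprInf K a * sprInf K b) := fun a b h => by
    have e : sprInf K (a + b) = sprInf K b := by
      rw [sprInf_apply, sprInf_apply, leadingCoeff_add_of_degree_lt h,
        natDegree_add_eq_right_of_degree_lt h]
    rw [e]
    linear_combination (-sprInf K a) * sq b (ne_zero_of_degree_gt h)
  refine ⟨z, by simp [sprInf_apply, c_neg], sq, fun a b => ?_⟩
  rcases lt_trichotomy a.degree b.degree with h | h | h
  · exact lt a b h
  · have hn : a.natDegree = b.natDegree := natDegree_eq_of_degree_eq h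
    by_cases a0 : a = 0
    · have b0 : b = 0 := by rw [a0, degree_zero] at h; exact degree_eq_bot.1 h.symm
      simp [a0, b0, z]
    by_cases hl : a.leadingCoeff + b.leadingCoeff = 0
    · have e : sprInf K b = -sprInf K a := by
        rw [sprInf_apply, sprInf_apply, hn, ← neg_eq_of_add_eq_zero_right hl, c_neg, map_neg, mul_neg]
      rw [e]
      linear_combination sprInf K (a + b) * sq a a0
    · have d : (a + b).natDegree = b.natDegree := by
        refine natDegree_eq_of_degree_eq ?_
        rw [degree_add_eq_of_leadingCoeff_add_ne_zero hl, h, max_self]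
      have k := congrArg (algebraMap (R K) (Pl.B K)) (c_add a.leadingCoeff b.leadingCoeff)
      have t : Pl.τ K ^ b.natDegree * Pl.τ K ^ b.natDegree = 1 := by
        rw [← mul_pow, Pl.τ_sq, one_pow]
      simp only [map_add, map_mul, map_one] at k
      rw [sprInf_apply, sprInf_apply, sprInf_apply, d, hn, leadingCoeff_add_of_degree_eq h hl]
      linear_combination Pl.τ K ^ b.natDegree * k - Pl.τ K ^ b.natDegree *
        algebraMap (R K) (Pl.B K) (c K (a.leadingCoeff + b.leadingCoeff)) *
        algebraMap (R K) (Pl.B K) (c K a.leadingCoeff) *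
        algebraMap (R K) (Pl.B K) (c K b.leadingCoeff) * t
  · rw [add_comm, add_comm a, mul_comm (sprInf K a)]
    exact lt b a h

theorem spr_const (s : R K) :
    lift _ sprInf_sym (map C C_injective s) = algebraMap (R K) (Pl.B K) s := by
  induction s using induction_on with
  | h1 a => rw [map_c, lift_c, sprInf_apply]; simp
  | hadd x y hx hy => simp only [map_add, hx, hy]

theorem spr_L {x : R K[X]} (hx : x ∈ L K 1) : ∃ s, x = map C C_injective s := by
  induction hx using Subring.closure_induction with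
  | mem x hx =>
    obtain ⟨g, hg, rfl⟩ := hx
    obtain ⟨s, rfl⟩ := natDegree_eq_zero.1 (Nat.lt_one_iff.1 hg)
    exact ⟨c K s, (map_c _ _ _).symm⟩
  | zero => exact ⟨0, by simp⟩
  | one => exact ⟨1, by simp⟩
  | add _ _ _ _ a b =>
    obtain ⟨s, rfl⟩ := a
    obtain ⟨t, rfl⟩ := b
    exact ⟨s + t, by simp⟩
  | neg _ _ a =>
    obtain ⟨s, rfl⟩ := a
    exact ⟨-s, by simp⟩
  | mul _ _ _ _ a b =>
    obtain ⟨s, rfl⟩ := a
    obtain ⟨t, rfl⟩ := b
    exact ⟨s * t, by simp⟩

theorem spr_simple (p : Irr K) (hp : Odd p.1.natDegree) {φ : R K}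
    (h : map (p.pl.π.comp C) (p.pl.π.comp C).injective φ = 0) : φ = 0 := by
  obtain ⟨s, hs⟩ := spr_L (L_of_res (x := map C C_injective φ * c _ p.1) fun q => by
    rw [q.pl.dp_mul_of (q.pl.cst φ).1]
    by_cases e : q = p
    · subst e
      rw [(q.pl.cst φ).2, h, zero_mul]
    · rw [q.pl.dp_c (q.ne_of_ne e), mul_zero])
  have k := congrArg (lift _ sprInf_sym) hs
  obtain ⟨n, hn⟩ := hp
  rw [map_mul, spr_const, spr_const, lift_c, sprInf_apply, hn, pow_succ, pow_mul, sq, Pl.τ_sq,
    p.2.2.leadingCoeff] at k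
  simpa [Pl.τ] using congrArg QuadraticAlgebra.im k

theorem spr_inj (K L : Type u) [Field K] [Field L] [Algebra K L] (h : Odd (finrank K L))
    {φ : R K} (h0 : map (algebraMap K L) (algebraMap K L).injective φ = 0) : φ = 0 := by
  induction hn : finrank K L using Nat.strong_induction_on generalizing K with
  | _ n ih =>
  have : FiniteDimensional K L := Module.finite_of_finrank_pos h.pos
  by_cases hs : Function.Surjective (algebraMap K L)
  · let ε := RingEquiv.ofBijective (algebraMap K L) ⟨(algebraMap K L).injective, hs⟩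
    have := oe_map2 (f := algebraMap K L) (g := (ε.symm : L →+* K)) (h := RingHom.id K)
      (algebraMap K L).injective ε.symm.injective Function.injective_id
      (fun a => ε.symm_apply_apply a) φ
    rw [h0, map_zero, oe_map1 _ fun _ => rfl] at this
    exact this.symm
  obtain ⟨θ, hθ⟩ := not_forall.1 hs
  have hi : IsIntegral K θ := .of_finite K θ
  obtain ⟨p, hp⟩ : ∃ p : Irr K, p.1 = minpoly K θ :=
    ⟨⟨_, minpoly.irreducible hi, minpoly.monic hi⟩, rfl⟩
  have hp1 : p.1.eval₂ (algebraMap K L) θ = 0 := by rw [hp]; exact minpoly.aeval K θ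
  let ι : AdjoinRoot p.1 →+* L := AdjoinRoot.lift (algebraMap K L) θ hp1
  let _ : Algebra (AdjoinRoot p.1) L := ι.toAlgebra
  have hι : ∀ a : K, ι (AdjoinRoot.of p.1 a) = algebraMap K L a := fun a => AdjoinRoot.lift_of hp1
  have : IsScalarTower K (AdjoinRoot p.1) L := .of_algebraMap_eq fun a => (hι a).symm
  have hm := Module.finrank_mul_finrank K (AdjoinRoot p.1) L
  have hd : finrank K (AdjoinRoot p.1) = p.1.natDegree := by
    rw [(AdjoinRoot.powerBasis p.2.1.ne_zero).finrank, AdjoinRoot.powerBasis_dim]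
  have h2 : 2 ≤ p.1.natDegree := by rw [hp]; exact (minpoly.two_le_natDegree_iff hi).2 hθ
  rw [hd] at hm
  rw [← hm, Nat.odd_mul] at h
  refine spr_simple p h.1 (ih _ ?_ (AdjoinRoot p.1) h.2 ?_ rfl)
  · have := h.2.pos
    rw [← hn, ← hm]
    nlinarith
  · exact (oe_map2 _ _ _ hι φ).trans h0

/-- Descent along a finite extension of odd degree. -/
theorem odd_desc (K L : Type u) [Field K] [Field L] [Algebra K L] (h : Odd (finrank K L)) {m : ℕ}
    (hL : J L ^ m = ⊥) : J K ^ m = ⊥ := by
  rw [eq_bot_iff]
  intro φ hφ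
  have := oe_mem (algebraMap K L).injective hφ
  rw [hL, Ideal.mem_bot] at this
  exact spr_inj K L h this

end Pool.Agent.Lib.MP_887a05_al.L3
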